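import Pool.Agent.H459R3.NS.Sol

/-!
Galilean invariance.
-/

set_option autoImplicit false

open MeasureTheory Set Filter Topology
open scoped ContDiff

namespace Pool.Agent.Run7.h32.GD

open H459R3.NS

lemma pd_shift (g : V → ℝ) (a : V) (j : Fin 3) (x : V) :
    pd j (fun y => g (y - a)) x = pd j g (x - a) := by
  unfold pd
  have := fderiv_comp_add_right (𝕜 := ℝ) (f := g) (x := x) (-a)
  simp only [← sub_eq_add_neg] at this
  rw [this]

lemma pd_const_add' (g : V → ℝ) (c : ℝ) (j : Fin 3) (x : V) :
    pd j (fun y => c + g y) x = pd j g x := by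
  unfold pd
  rw [fderiv_const_add]

theorem galilei {ν T : ℝ} {u : ℝ → V → V} {p : ℝ → V → ℝ} (h : IsSol ν T u p) (m : V) :
    IsSol ν T (fun t x => m + u t (x - t • m)) (fun t x => p t (x - t • m)) := by
  have hmap : ContDiff ℝ ∞ (fun z : ℝ × V => ((z.1, z.2 - z.1 • m) : ℝ × V)) := by fun_prop
  have hmt : MapsTo (fun z : ℝ × V => ((z.1, z.2 - z.1 • m) : ℝ × V)) (Ico 0 T ×ˢ univ)
      (Ico 0 T ×ˢ univ) := fun z hz => ⟨hz.1, mem_univ _⟩
  have hp1 : ∀ t, ∀ i j x, pd j (fun y => (m + u t (y - t • m)) i) x
      = pd j (fun y => u t y i) (x - t • m) := by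
    intro t i j x
    have e : (fun y => (m + u t (y - t • m)) i) = fun y => m i + (fun y => u t y i) (y - t • m) := by
      funext y; rfl
    rw [e, pd_const_add' (fun y => (fun y => u t y i) (y - t • m))]
    exact pd_shift (fun y => u t y i) _ _ _
  refine ⟨?_, ?_, ?_, ?_, ?_, ?_⟩
  · exact contDiffOn_const.add (h.smooth_u.comp hmap.contDiffOn hmt)
  · exact h.smooth_p.comp hmap.contDiffOn hmt
  · intro t ht i x
    show m + u t (x + Pi.single i 1 - t • m) = m + u t (x - t • m)
    rw [add_sub_right_comm, h.per_u t ht i]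
  · intro t ht i x
    show p t (x + Pi.single i 1 - t • m) = p t (x - t • m)
    rw [add_sub_right_comm, h.per_p t ht i]
  · intro t ht x
    simp_rw [hp1]
    exact h.divfree t ht _
  · intro t ht x i
    have hf := h.smooth_c i
    set f : ℝ → V → ℝ := fun s y => u s y i with hfd
    set F : ℝ × V → ℝ := fun z => f z.1 z.2 with hF
    set y : V := x - t • m with hy
    have hmem : Ioo 0 T ×ˢ (univ : Set V) ∈ 𝓝 (t, y) :=
      prod_mem_nhds (Ioo_mem_nhds ht.1 ht.2) Filter.univ_mem
    have hd : DifferentiableAt ℝ F (t, y) :=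
      ((mono_Ioo hf (n := 1) (by norm_cast)).contDiffAt hmem).differentiableAt one_ne_zero
    have hcurve : HasDerivAt (fun s : ℝ => ((s, x - s • m) : ℝ × V)) (1, -m) t := by
      refine (hasDerivAt_id t).prodMk ?_
      have := ((hasDerivAt_id t).smul_const m).const_sub x
      simpa using this
    have h1 : HasDerivAt (fun s => m i + F (s, x - s • m)) (fderiv ℝ F (t, y) (1, -m)) t :=
      (hd.hasFDerivAt.comp_hasDerivAt (x := t) (f := fun s : ℝ => ((s, x - s • m) : ℝ × V))
        hcurve).const_add _
    have h2 : deriv (fun s => (m + u s (x - s • m)) i) t = fderiv ℝ F (t, y) (1, -m) := h1.deriv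
    have e1 : fderiv ℝ F (t, y) (1, -m) = dt f t y - ∑ j, m j * pd j (f t) y := by
      have a1 : ((1, -m) : ℝ × V) = (1, 0) - ∑ j, m j • ((0, Pi.single j 1) : ℝ × V) := by
        refine Prod.ext ?_ ?_
        · simp [Prod.fst_sum]
        · simp only [Prod.snd_sub, Prod.snd_sum, Prod.smul_snd, zero_sub, neg_inj]
          conv_lhs => rw [← Finset.univ_sum_single m]
          refine Finset.sum_congr rfl fun j _ => ?_
          rw [← Pi.single_smul]; simp
      rw [a1, map_sub, map_sum, dt_eq hf ht]
      congr 1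
      refine Finset.sum_congr rfl fun j _ => ?_
      rw [map_smul, pd_eq_fderiv hf ht, smul_eq_mul]
    have hp2 : ∀ j, pd j (pd j (fun y => (m + u t (y - t • m)) i)) x
        = pd j (pd j (fun y => u t y i)) y := by
      intro j
      have : pd j (fun y => (m + u t (y - t • m)) i)
          = fun z => pd j (fun y => u t y i) (z - t • m) := funext fun z => hp1 t i j z
      rw [this]
      exact pd_shift (pd j (fun y => u t y i)) _ _ _
    have hpp : pd i (fun x => p t (x - t • m)) x = pd i (p t) y := pd_shift _ _ _ _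
    have hmom := h.momentum t ht y i
    rw [h2, e1, hpp]
    simp_rw [hp1, hp2]
    have e2 : ∀ j, (m + u t (x - t • m)) j * pd j (fun y => u t y i) (x - t • m)
        = m j * pd j (f t) y + u t y j * pd j (fun y => u t y i) y := by
      intro j
      rw [Pi.add_apply, add_mul]
    rw [Finset.sum_congr rfl fun j _ => e2 j, Finset.sum_add_distrib]
    have e3 : dt f t y = deriv (fun s => u s y i) t := rfl
    rw [e3]
    linarith

end Pool.Agent.Run7.h32.GD
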