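import Pool.Agent.Run7.h32.GD.Phys
import Pool.Agent.Run7.h32.GD.Gli
import Pool.Agent.Run7.h782.GD.Bas
import Pool.Agent.H459R3.NS.Main

/-!
Fourier coefficients, the heat semigroup, tails.
-/

set_option autoImplicit false

open MeasureTheory Set Filter Topology
open scoped ContDiff

namespace Pool.Agent.Run7.h32.GD

open H459R3.NS Pool.Agent.Run7.h782.GD

lemma fr_neg (f : V → ℝ) (k : K3) : fr f (-k) = (starRingEnd ℂ) (fr f k) := by
  unfold fr fc
  rw [← integral_conj]
  congr 1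
  funext x
  rw [map_mul, Complex.conj_ofReal, ← ee_neg]

lemma fr_S {c : K3 → ℂ} (hc : Summable c) (hh : ∀ k, c (-k) = (starRingEnd ℂ) (c k)) (k : K3) :
    fr (fun x => (S c x).re) k = c k := by
  have h := integral_ee_S (-k) hc
  rw [neg_neg] at h
  rw [← h]
  unfold fr fc
  congr 1
  funext x
  show ee (-k) x * (((S c x).re : ℝ) : ℂ) = _
  rw [← S_real hh]

lemma fr_sub {f g : V → ℝ} (hf : Continuous f) (hg : Continuous g) (k : K3) :
    fr (fun x => f x - g x) k = fr f k - fr g k := by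
  unfold fr fc
  rw [← integral_sub]
  · congr 1
    funext x
    push_cast
    ring
  · exact integrableOn_cube ((ee_continuous _).mul (Complex.continuous_ofReal.comp hf))
  · exact integrableOn_cube ((ee_continuous _).mul (Complex.continuous_ofReal.comp hg))

lemma fr_zero_eq (f : V → ℝ) : fr f 0 = ((∫ x in cube, f x : ℝ) : ℂ) := by
  unfold fr fc
  rw [← integral_complex_ofReal]
  congr 1
  funext x
  rw [neg_zero, ee_zero, one_mul]

/-- the heat multiplier -/
noncomputable def hm (t : ℝ) (k : K3) : ℝ := Real.exp (-(4 * Real.pi ^ 2 * h782.GD.sq k * t))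

lemma hm_pos (t : ℝ) (k : K3) : 0 < hm t k := Real.exp_pos _

lemma hm_le_one {t : ℝ} (ht : 0 ≤ t) (k : K3) : hm t k ≤ 1 := by
  unfold hm
  rw [Real.exp_le_one_iff]
  have := mul_nonneg (mul_nonneg (by positivity : (0 : ℝ) ≤ 4 * Real.pi ^ 2) (GD.sq_nonneg' k)) ht
  linarith

lemma hm_le {t : ℝ} (ht : 0 < t) {k : K3} (hk : k ≠ 0) : hm t k ≤ 1 / Real.sqrt t := by
  unfold hm
  have hst : 0 < Real.sqrt t := Real.sqrt_pos.2 ht
  rw [Real.exp_neg, ← one_div]
  apply one_div_le_one_div_of_le hst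
  have h1 : 1 ≤ h782.GD.sq k := one_le_sq hk
  have h2 : t ≤ 4 * Real.pi ^ 2 * h782.GD.sq k * t := by
    have h3 : (1 : ℝ) ≤ 4 * Real.pi ^ 2 * h782.GD.sq k := by
      have := Real.pi_gt_three
      nlinarith [mul_nonneg (sq_nonneg Real.pi) (sub_nonneg.2 h1)]
    nlinarith
  refine le_trans ?_ (Real.exp_le_exp.2 h2)
  have h3 := Real.add_one_le_exp t
  have h4 : Real.sqrt t ≤ t + 1 := by
    rw [Real.sqrt_le_left (by linarith)]
    nlinarith
  linarith

lemma heat_bd {f : V → ℝ} (hf : Summable fun k => ‖fr f k‖) {t : ℝ} (ht : 0 ≤ t) (x : V) :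
    |heat t f x| ≤ ∑' k, hm t k * ‖fr f k‖ := by
  unfold heat
  refine (Complex.abs_re_le_norm _).trans ?_
  have e : ∀ k, ‖(Real.exp (-(4 * Real.pi ^ 2 * h782.GD.sq k * t)) : ℂ) * fr f k * ee k x‖
      = hm t k * ‖fr f k‖ := fun k => by
    rw [norm_mul, norm_ee, mul_one, norm_mul, Complex.norm_real,
      Real.norm_of_nonneg (Real.exp_pos _).le]
    rfl
  have hs : Summable fun k =>
      ‖(Real.exp (-(4 * Real.pi ^ 2 * h782.GD.sq k * t)) : ℂ) * fr f k * ee k x‖ := by
    simp_rw [e]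
    exact Summable.of_nonneg_of_le (fun k => mul_nonneg (hm_pos _ _).le (norm_nonneg _))
      (fun k => mul_le_of_le_one_left (norm_nonneg _) (hm_le_one ht k)) hf
  refine (norm_tsum_le_tsum_norm hs).trans (le_of_eq (tsum_congr e))

lemma finite_ball (L : ℝ) : {k : K3 | len k ≤ L}.Finite := by
  refine (Set.finite_Icc (fun _ => -⌈L⌉ : K3) (fun _ => ⌈L⌉)).subset fun k hk => ?_
  have h : ∀ j, |(k j : ℝ)| ≤ (⌈L⌉ : ℝ) := fun j =>
    ((GD.abs_le_len k j).trans hk).trans (Int.le_ceil L)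
  refine ⟨fun j => ?_, fun j => ?_⟩
  · have := (abs_le.1 (h j)).1
    show -⌈L⌉ ≤ k j
    exact_mod_cast this
  · have := (abs_le.1 (h j)).2
    show k j ≤ ⌈L⌉
    exact_mod_cast this

open Classical in
lemma tail {A : K3 → ℝ} (hA : Summable A) (hA0 : ∀ k, 0 ≤ A k) (R : ℝ) {ε : ℝ} (hε : 0 < ε) :
    ∃ L, R ≤ L ∧ ∑' k, (if len k ≤ L then 0 else A k) ≤ ε := by
  obtain ⟨s, hs⟩ := (hA.tsum_vanishing (Iio_mem_nhds hε))
  obtain ⟨L, hL⟩ : ∃ L, ∀ k ∈ s, len k ≤ L := by
    refine ⟨∑ k ∈ s, len k, fun k hk => ?_⟩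
    exact Finset.single_le_sum (f := len) (fun i _ => GD.len_nonneg i) hk
  refine ⟨max R L, le_max_left _ _, ?_⟩
  have h1 := hs {k : K3 | ¬ len k ≤ max R L} (by
    rw [Set.disjoint_left]
    intro k hk hks
    exact hk ((hL k hks).trans (le_max_right _ _)))
  have h2 : ∑' k, (if len k ≤ max R L then 0 else A k)
      = ∑' b : {k : K3 | ¬ len k ≤ max R L}, A b := by
    rw [tsum_subtype]
    refine tsum_congr fun k => ?_
    rw [Set.indicator_apply]
    by_cases h : len k ≤ max R L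
    · rw [if_pos h, if_neg (fun h' : k ∈ {k : K3 | ¬ len k ≤ max R L} => h' h)]
    · rw [if_neg h, if_pos (show k ∈ {k : K3 | ¬ len k ≤ max R L} from h)]
  rw [h2]
  exact (show _ < ε from h1).le

/-- the integrated heat sum -/
lemma int_heat {A : K3 → ℝ} (hA : Summable A) (hA0 : ∀ k, 0 ≤ A k) (hz : A 0 = 0) :
    IntegrableOn (fun t => ∑' k, hm t k * A k) (Ioi 0) ∧
    ∫ t in Ioi (0 : ℝ), ∑' k, hm t k * A k ≤ ∑' k, A k / len k := by
  have hlam : ∀ k : K3, k ≠ 0 → 0 < 4 * Real.pi ^ 2 * h782.GD.sq k := fun k hk =>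
    mul_pos (by positivity) (sq_pos' hk)
  have hint : ∀ k : K3, k ≠ 0 → IntegrableOn (fun t => hm t k) (Ioi 0) := by
    intro k hk
    refine (integrableOn_exp_mul_Ioi (a := -(4 * Real.pi ^ 2 * h782.GD.sq k))
      (neg_lt_zero.2 (hlam k hk)) 0).congr_fun (fun t _ => ?_) measurableSet_Ioi
    show Real.exp _ = Real.exp _
    congr 1; ring
  have hval : ∀ k : K3, k ≠ 0 → ∫ t in Ioi (0 : ℝ), hm t k = 1 / (4 * Real.pi ^ 2 * h782.GD.sq k) := by
    intro k hk
    have h := integral_exp_mul_Ioi (a := -(4 * Real.pi ^ 2 * h782.GD.sq k))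
      (neg_lt_zero.2 (hlam k hk)) 0
    rw [mul_zero, Real.exp_zero, neg_div_neg_eq] at h
    rw [← h]
    congr 1
    funext t
    show Real.exp _ = Real.exp _
    congr 1; ring
  have hi : ∀ k, Integrable (fun t => hm t k * A k) (volume.restrict (Ioi 0)) := by
    intro k
    by_cases hk : k = 0
    · subst hk; rw [hz]; simp
    · exact (hint k hk).mul_const _
  have hv : ∀ k, ∫ t in Ioi (0 : ℝ), hm t k * A k ≤ A k / len k := by
    intro k
    by_cases hk : k = 0
    · subst hk; rw [hz]; simp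
    · rw [integral_mul_const, hval k hk, one_div, ← div_eq_inv_mul]
      apply div_le_div_of_nonneg_left (hA0 k) (len_pos hk)
      have h1 := one_le_len hk
      have h2 := len_sq k
      have h3 : len k ≤ h782.GD.sq k := by nlinarith
      have h4 : (1 : ℝ) ≤ 4 * Real.pi ^ 2 := by nlinarith [Real.pi_gt_three]
      nlinarith [GD.sq_nonneg' k]
  have hnn : ∀ k, ∫ t in Ioi (0 : ℝ), ‖hm t k * A k‖ = ∫ t in Ioi (0 : ℝ), hm t k * A k := by
    intro k
    congr 1
    funext t
    exact Real.norm_of_nonneg (mul_nonneg (hm_pos _ _).le (hA0 k))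
  have hlen : Summable fun k => A k / len k := by
    refine Summable.of_nonneg_of_le (fun k => div_nonneg (hA0 k) (GD.len_nonneg k)) (fun k => ?_) hA
    by_cases hk : k = 0
    · subst hk; rw [hz]; simp
    · exact div_le_self (hA0 k) (one_le_len hk)
  have hs : Summable fun k => ∫ t in Ioi (0 : ℝ), ‖hm t k * A k‖ := by
    simp_rw [hnn]
    refine Summable.of_nonneg_of_le (fun k => ?_) hv hlen
    exact integral_nonneg fun t => mul_nonneg (hm_pos _ _).le (hA0 k)
  have h1 := hasSum_integral_of_summable_integral_norm hi hs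
  refine ⟨?_, ?_⟩
  · have hcont : ContinuousOn (fun t => ∑' k, hm t k * A k) (Ici 0) := by
      refine continuousOn_tsum (u := A) (fun k => ?_) hA fun k t ht => ?_
      · unfold hm; fun_prop
      · rw [Real.norm_of_nonneg (mul_nonneg (hm_pos _ _).le (hA0 k))]
        exact mul_le_of_le_one_left (hA0 k) (hm_le_one ht k)
    refine ⟨(hcont.mono Ioi_subset_Ici_self).aestronglyMeasurable measurableSet_Ioi, ?_⟩
    have hb : ∀ t, ‖∑' k, hm t k * A k‖ₑ ≤ ∑' k, ENNReal.ofReal (hm t k * A k) := by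
      intro t
      by_cases hs : Summable fun k => hm t k * A k
      · rw [← ENNReal.ofReal_tsum_of_nonneg (fun k => mul_nonneg (hm_pos _ _).le (hA0 k)) hs,
          Real.enorm_of_nonneg (tsum_nonneg fun k => mul_nonneg (hm_pos _ _).le (hA0 k))]
      · rw [tsum_eq_zero_of_not_summable hs]
        simp
    show (∫⁻ t in Ioi (0 : ℝ), ‖∑' k, hm t k * A k‖ₑ) < ⊤
    calc (∫⁻ t in Ioi (0 : ℝ), ‖∑' k, hm t k * A k‖ₑ)
        ≤ ∫⁻ t in Ioi (0 : ℝ), ∑' k, ENNReal.ofReal (hm t k * A k) := lintegral_mono hb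
      _ = ∑' k, ∫⁻ t in Ioi (0 : ℝ), ENNReal.ofReal (hm t k * A k) := by
        refine lintegral_tsum fun k => ?_
        have : Measurable fun t => hm t k * A k := by
          unfold hm
          exact Continuous.measurable (by fun_prop)
        exact this.ennreal_ofReal.aemeasurable
      _ ≤ ∑' k, ENNReal.ofReal (A k / len k) := by
        refine ENNReal.tsum_le_tsum fun k => ?_
        rw [← ofReal_integral_eq_lintegral_ofReal (hi k) (ae_of_all _ fun t =>
          mul_nonneg (hm_pos _ _).le (hA0 k))]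
        exact ENNReal.ofReal_le_ofReal (hv k)
      _ = ENNReal.ofReal (∑' k, A k / len k) :=
        (ENNReal.ofReal_tsum_of_nonneg (fun k => div_nonneg (hA0 k) (GD.len_nonneg k)) hlen).symm
      _ < ⊤ := ENNReal.ofReal_lt_top
  · rw [← h1.tsum_eq]
    exact h1.summable.tsum_le_tsum hv hlen

end Pool.Agent.Run7.h32.GD
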