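import Pool.Agent.Run7.h32.GD.Fou

/-!
Piece P5: the theorem from the other pieces.
-/

set_option autoImplicit false

open MeasureTheory Set Filter Topology
open scoped ContDiff

namespace Pool.Agent.Run7.h32.GD

open H459R3.NS Pool.Agent.Run7.h782.GD

lemma good_time {f : ℝ → ℝ} (hf : ContinuousOn f (Ici 0)) (hf0 : ∀ t, 0 ≤ t → 0 ≤ f t) {δ E : ℝ}
    (hδ : 0 < δ) (hE : ∫ t in (0 : ℝ)..δ, f t ≤ E) : ∃ s, δ / 2 ≤ s ∧ s ≤ δ ∧ f s ≤ 2 * E / δ := by
  have hI : Icc (δ / 2) δ ⊆ Ici 0 := fun t ht => (by positivity : (0 : ℝ) ≤ δ / 2).trans ht.1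
  obtain ⟨s, hs, hmin⟩ := isCompact_Icc.exists_isMinOn (nonempty_Icc.2 (by linarith : δ / 2 ≤ δ))
    (hf.mono hI)
  refine ⟨s, hs.1, hs.2, ?_⟩
  have i1 : IntervalIntegrable f volume 0 (δ / 2) := by
    apply ContinuousOn.intervalIntegrable
    rw [uIcc_of_le (by positivity)]
    exact hf.mono fun t ht => ht.1
  have i2 : IntervalIntegrable f volume (δ / 2) δ := by
    apply ContinuousOn.intervalIntegrable
    rw [uIcc_of_le (by linarith)]
    exact hf.mono hI
  have h1 := intervalIntegral.integral_add_adjacent_intervals i1 i2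
  have h2 : 0 ≤ ∫ t in (0 : ℝ)..(δ / 2), f t :=
    intervalIntegral.integral_nonneg (by positivity) fun t ht => hf0 t ht.1
  have h3 : ∫ _ in (δ / 2)..δ, f s ≤ ∫ t in (δ / 2)..δ, f t :=
    intervalIntegral.integral_mono_on (by linarith) (by simp) i2 fun t ht => hmin ht
  rw [intervalIntegral.integral_const, smul_eq_mul] at h3
  rw [le_div_iff₀ hδ]
  nlinarith

lemma sum_supp_le {B A : Finset K3} {f : K3 → ℝ} (hf : ∀ k ∉ B, f k = 0) (h0 : ∀ k, 0 ≤ f k) :
    ∑ k ∈ A, f k ≤ ∑ k ∈ B, f k := by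
  classical
  calc ∑ k ∈ A, f k ≤ ∑ k ∈ A ∪ B, f k :=
        Finset.sum_le_sum_of_subset_of_nonneg Finset.subset_union_left fun k _ _ => h0 k
    _ = ∑ k ∈ B, f k := (Finset.sum_subset Finset.subset_union_right fun k _ hk => hf k hk).symm

lemma S_add {b c : K3 → ℂ} (hb : Summable b) (hc : Summable c) (x : V) :
    S (fun k => b k + c k) x = S b x + S c x := by
  unfold S
  rw [← (summable_term hb x).tsum_add (summable_term hc x)]
  exact tsum_congr fun k => by ring

lemma S_single (m : ℂ) (x : V) : S (fun k => if k = 0 then m else 0) x = m := by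
  unfold S
  rw [tsum_eq_single 0 (fun k hk => by dsimp only; rw [if_neg hk, zero_mul])]
  dsimp only
  rw [if_pos rfl, ee_zero, mul_one]

/-- **Piece P5.** -/
theorem main (h1 : StmT1) (h2 : StmApp) (h3 : StmPhys) (h6 : StmDecay) : StmMain := by
  classical
  obtain ⟨C₁, hC₁, H1⟩ := h1
  obtain ⟨C₀, hC₀, H2⟩ := h2
  obtain ⟨c, hc, H6⟩ := h6
  refine ⟨2 * C₀ + 2, by positivity, ?_⟩
  intro ν hν u₀ hu0 hper hdiv δ hδ R
  have hsp : ∀ i, SP (fun x => u₀ x i) := fun i =>
    ⟨contDiff_pi.1 hu0 i, fun j x => congrFun (hper j x) i⟩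
  have hfrs : ∀ i, Summable (fr (fun x => u₀ x i)) := fun i => (rap_fr (hsp i)).summable
  set A : K3 → ℝ := fun k => ‖vf u₀ k‖ with hA
  have hA0 : ∀ k, 0 ≤ A k := fun k => norm_nonneg _
  have hAs : Summable A := by
    refine Summable.of_nonneg_of_le hA0 (fun k => ?_)
      (summable_sum (s := Finset.univ) fun i _ => (hfrs i).norm)
    refine (pi_norm_le_iff_of_nonneg (Finset.sum_nonneg fun _ _ => norm_nonneg _)).2 fun i => ?_
    exact Finset.single_le_sum (f := fun i => ‖fr (fun x => u₀ x i) k‖)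
      (fun _ _ => norm_nonneg _) (Finset.mem_univ i)
  obtain ⟨L, hRL, hL⟩ := tail hAs hA0 (max R 0) (ε := min (δ / 2) ν) (by positivity)
  have hRL' : R ≤ L := (le_max_left _ _).trans hRL
  have hL0 : 0 ≤ L := (le_max_right _ _).trans hRL
  set tA : K3 → ℝ := fun k => if len k ≤ L then 0 else A k with htA
  have htA0 : ∀ k, 0 ≤ tA k := fun k => by rw [htA]; dsimp only; split_ifs <;> simp [hA0]
  have htAle : ∀ k, tA k ≤ A k := fun k => by
    rw [htA]; dsimp only; split_ifs
    · exact hA0 k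
    · exact le_rfl
  have htAs : Summable tA := Summable.of_nonneg_of_le htA0 htAle hAs
  have htAz : tA 0 = 0 := by
    rw [htA]; dsimp only; rw [if_pos]; rw [len_zero]; exact hL0
  set Z : Finset K3 := (finite_ball L).toFinset.erase 0 with hZ
  have hZmem : ∀ k, k ∈ Z ↔ k ≠ 0 ∧ len k ≤ L := fun k => by
    rw [hZ, Finset.mem_erase, Set.Finite.mem_toFinset, Set.mem_ofPred_eq]
  set z : Cf := fun k => if k ∈ Z then vf u₀ k else 0 with hz
  have hz0 : (0 : K3) ∉ Z := fun h => ((hZmem 0).1 h).1 rfl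
  have hzs : ∀ k ∉ Z, z k = 0 := fun k hk => by rw [hz]; dsimp only; rw [if_neg hk]
  have hzin : ∀ k ∈ Z, z k = vf u₀ k := fun k hk => by rw [hz]; dsimp only; rw [if_pos hk]
  have hzh : Herm z := by
    intro k i
    by_cases hk : k ∈ Z
    · have hk' : -k ∈ Z := by
        rw [hZmem] at hk ⊢
        exact ⟨neg_ne_zero.2 hk.1, by rw [len_neg]; exact hk.2⟩
      rw [hzin _ hk, hzin _ hk']
      exact fr_neg _ _
    · have hk' : -k ∉ Z := by
        intro h
        apply hk
        rw [hZmem] at h ⊢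
        exact ⟨neg_ne_zero.1 h.1, by rw [← len_neg]; exact h.2⟩
      rw [hzs _ hk, hzs _ hk']
      simp
  have hzd : Dv z := by
    intro k
    by_cases hk : k ∈ Z
    · rw [hzin _ hk]
      exact fr_div hsp hdiv k
    · rw [hzs _ hk, kd_zero_right]
  obtain ⟨K, HK⟩ := H2 ν hν Z z hz0 hzs hzh hzd
  have hδ₁ : 0 < min (δ / 4) (c * ν / 2) := by positivity
  set δ₁ : ℝ := min (δ / 4) (c * ν / 2) with hδ₁d
  set EE : ℝ := min (min ν (c * ν / 2)) (ν * δ ^ 2 / 16) with hEE
  have hEE0 : 0 < EE := by positivity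
  set η : ℝ := EE / (C₁ * Real.exp (C₁ * K / ν)) with hη
  have hη0 : 0 < η := by positivity
  obtain ⟨B, v, F, g, w, happ, hg, hFg, hgi, hvK, hv0, hwB, hwR, hwh, hwi, hvd⟩ :=
    HK δ₁ hδ₁ R η hη0
  have hE : C₁ * η * Real.exp (C₁ * K / ν) = EE := by
    rw [hη]
    have := Real.exp_pos (C₁ * K / ν)
    field_simp
  obtain ⟨a, ha, ha0, hcl, hint⟩ := H1 ν hν B v F g K η happ hg hFg hgi hvK (by
    rw [hE]; exact (min_le_left _ _).trans (min_le_left _ _))
  rw [hE] at hcl hint
  have hsa : ∀ t, 0 ≤ t → ∀ i, Summable (cmp a i t) := fun t ht i => (dec_cmp ha i).summable ht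
  have hsn : ∀ t, 0 ≤ t → Summable fun k => ‖a t k‖ := by
    intro t ht
    obtain ⟨μ, hμ, C, hC⟩ := ha.dec
    exact Summable.of_nonneg_of_le (fun _ => norm_nonneg _) (hC t ht)
      ((GD.summable_exp hμ).mul_left C)
  -- smallness at a good time
  have hvB : ∀ t, ∀ k ∉ B, ‖v t k‖ = 0 := fun t k hk => by rw [happ.suppv t k hk, norm_zero]
  have hv00 : ∀ t, v t 0 = 0 := fun t => happ.suppv t 0 happ.zero
  obtain ⟨s, hs1, hs2, hs3⟩ : ∃ s, δ / 2 ≤ s ∧ s ≤ δ ∧ ∑' k, ‖a s k‖ ≤ δ := by
    obtain ⟨μ, hμ, C, hC⟩ := ha.dec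
    obtain ⟨A1, hA1⟩ := summable_iff_vanishing_norm.1 ((GD.summable_exp hμ).mul_left C) (δ / 8)
      (by positivity)
    have hcont : ContinuousOn (fun t => ∑ k ∈ A1, len k * ‖a t k - v t k‖) (Ici 0) := by
      refine continuousOn_finsetSum _ fun k _ => continuousOn_const.mul (ContinuousOn.norm ?_)
      exact ContinuousOn.sub (fun t ht => (ha.der t ht k).continuousWithinAt)
        (fun t ht => (happ.der t ht k).continuousWithinAt)
    obtain ⟨s, hs1, hs2, hs3⟩ := good_time hcont (fun t _ => Finset.sum_nonneg fun k _ =>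
      mul_nonneg (GD.len_nonneg k) (norm_nonneg _)) hδ (hint δ hδ.le A1)
    have hs0 : 0 ≤ s := (by positivity : (0 : ℝ) ≤ δ / 2).trans hs1
    refine ⟨s, hs1, hs2, ?_⟩
    refine Real.tsum_le_of_sum_le (fun _ => norm_nonneg _) fun A2 => ?_
    have e1 : ∑ k ∈ A1, ‖a s k - v s k‖ ≤ δ / 8 := by
      calc ∑ k ∈ A1, ‖a s k - v s k‖ ≤ ∑ k ∈ A1, len k * ‖a s k - v s k‖ := by
            refine Finset.sum_le_sum fun k _ => ?_
            by_cases hk : k = 0
            · rw [hk, ha.zero s hs0, hv00]; simp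
            · exact le_mul_of_one_le_left (norm_nonneg _) (one_le_len hk)
        _ ≤ 2 * (EE / ν) / δ := hs3
        _ ≤ δ / 8 := by
          have : EE ≤ ν * δ ^ 2 / 16 := min_le_right _ _
          rw [div_le_iff₀ hδ, ← mul_div_assoc, div_le_iff₀ hν]
          nlinarith
    have e2 : ∑ k ∈ A1, ‖v s k‖ ≤ δ / 4 :=
      ((sum_supp_le (hvB s) fun _ => norm_nonneg _).trans (hvd s
        ((min_le_left _ _).trans (by linarith)))).trans (min_le_left _ _)
    have e3 : ∑ k ∈ A1, ‖a s k‖ ≤ δ / 8 + δ / 4 := by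
      refine le_trans ?_ (add_le_add e1 e2)
      rw [← Finset.sum_add_distrib]
      refine Finset.sum_le_sum fun k _ => ?_
      have : a s k = (a s k - v s k) + v s k := by abel
      calc ‖a s k‖ = ‖(a s k - v s k) + v s k‖ := by rw [← this]
        _ ≤ _ := norm_add_le _ _
    have e4 : ∑ k ∈ A2 \ A1, ‖a s k‖ ≤ δ / 8 := by
      have h4 := hA1 (A2 \ A1) Finset.sdiff_disjoint
      refine (Finset.sum_le_sum fun k _ => hC s hs0 k).trans ?_
      exact (le_abs_self _).trans h4.le
    calc ∑ k ∈ A2, ‖a s k‖ ≤ ∑ k ∈ A1 ∪ A2 \ A1, ‖a s k‖ := by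
          refine Finset.sum_le_sum_of_subset_of_nonneg (fun k hk => ?_) fun _ _ _ => norm_nonneg _
          by_cases hk' : k ∈ A1
          · exact Finset.mem_union_left _ hk'
          · exact Finset.mem_union_right _ (Finset.mem_sdiff.2 ⟨hk, hk'⟩)
      _ = ∑ k ∈ A1, ‖a s k‖ + ∑ k ∈ A2 \ A1, ‖a s k‖ :=
          Finset.sum_union Finset.disjoint_sdiff
      _ ≤ δ := by linarith
  have hs0 : 0 ≤ s := (by positivity : (0 : ℝ) ≤ δ / 2).trans hs1
  have hdecay : ∀ t, s ≤ t → ∑' k, ‖a t k‖ ≤ δ := by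
    intro t ht
    refine (H6 ν hν a ha s hs0 (fun t ht A2 => ?_) t ht).trans hs3
    have ht0 : 0 ≤ t := hs0.trans ht
    have e1 := hcl t ht0 A2
    have e2 : ∑ k ∈ A2, ‖v t k‖ ≤ δ₁ :=
      (sum_supp_le (hvB t) fun _ => norm_nonneg _).trans (hvd t
        (((min_le_left _ _).trans (by linarith)).trans ht))
    have e3 : ∑ k ∈ A2, ‖a t k‖ / len k
        ≤ ∑ k ∈ A2, ‖a t k - v t k‖ / len k + ∑ k ∈ A2, ‖v t k‖ := by
      rw [← Finset.sum_add_distrib]
      refine Finset.sum_le_sum fun k _ => ?_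
      by_cases hk : k = 0
      · rw [hk, ha.zero t ht0, hv00]; simp
      · have h5 : ‖a t k‖ ≤ ‖a t k - v t k‖ + ‖v t k‖ := by
          have : a t k = (a t k - v t k) + v t k := by abel
          calc ‖a t k‖ = ‖(a t k - v t k) + v t k‖ := by rw [← this]
            _ ≤ _ := norm_add_le _ _
        calc ‖a t k‖ / len k ≤ (‖a t k - v t k‖ + ‖v t k‖) / len k :=
              div_le_div_of_nonneg_right h5 (GD.len_nonneg k)
          _ = ‖a t k - v t k‖ / len k + ‖v t k‖ / len k := add_div _ _ _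
          _ ≤ _ := by
            have := div_le_self (norm_nonneg (v t k)) (one_le_len hk)
            linarith
    have e4 : EE ≤ c * ν / 2 := (min_le_left _ _).trans (min_le_right _ _)
    have e5 : δ₁ ≤ c * ν / 2 := min_le_right _ _
    linarith
  -- the solution
  set m : V := fun i => ∫ y in cube, u₀ y i with hm'
  obtain ⟨p, hp⟩ := h3 ν a ha
  have hu0i : ∀ i x, (m + fld a 0 (x - (0 : ℝ) • m)) i
      = (S (fun k => (if k = 0 then ((m i : ℝ) : ℂ) else 0) + cmp a i 0 k) x).re := by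
    intro i x
    rw [zero_smul, sub_zero, S_add (b := fun k => if k = 0 then ((m i : ℝ) : ℂ) else 0) _
      (hsa 0 le_rfl i), S_single, Complex.add_re, Complex.ofReal_re]
    · rfl
    · exact summable_of_hasFiniteSupport ((Set.finite_singleton (0 : K3)).subset fun k hk => by
        by_contra h
        exact hk (if_neg h))
  have hcs : ∀ i, Summable (fun k => (if k = 0 then ((m i : ℝ) : ℂ) else 0) + cmp a i 0 k) := by
    intro i
    refine Summable.add ?_ (hsa 0 le_rfl i)
    exact summable_of_hasFiniteSupport ((Set.finite_singleton (0 : K3)).subset fun k hk => by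
        by_contra h
        exact hk (if_neg h))
  have hch : ∀ i k, (fun k => (if k = 0 then ((m i : ℝ) : ℂ) else 0) + cmp a i 0 k) (-k)
      = (starRingEnd ℂ) ((fun k => (if k = 0 then ((m i : ℝ) : ℂ) else 0) + cmp a i 0 k) k) := by
    intro i k
    dsimp only
    rw [map_add]
    congr 1
    · by_cases hk : k = 0
      · rw [if_pos hk, if_pos (neg_eq_zero.2 hk), Complex.conj_ofReal]
      · rw [if_neg hk, if_neg (fun h => hk (neg_eq_zero.1 h)), map_zero]
    · exact ha.herm 0 le_rfl k i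
  have hfru : ∀ i k, fr (fun x => (m + fld a 0 (x - (0 : ℝ) • m)) i) k
      = (if k = 0 then ((m i : ℝ) : ℂ) else 0) + a 0 k i := by
    intro i k
    have : (fun x => (m + fld a 0 (x - (0 : ℝ) • m)) i) = fun x =>
      (S (fun k => (if k = 0 then ((m i : ℝ) : ℂ) else 0) + cmp a i 0 k) x).re :=
      funext (hu0i i)
    rw [this, fr_S (hcs i) (hch i)]
    rfl
  have hw0 : w 0 = 0 := hwB 0 happ.zero
  have hm0 : ∀ i, fr (fun x => u₀ x i) 0 = ((m i : ℝ) : ℂ) := fun i => fr_zero_eq _
  have hcont0 : ∀ i, Continuous fun x => (m + fld a 0 (x - (0 : ℝ) • m)) i := by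
    intro i
    have : (fun x => (m + fld a 0 (x - (0 : ℝ) • m)) i) = fun x =>
      (S (fun k => (if k = 0 then ((m i : ℝ) : ℂ) else 0) + cmp a i 0 k) x).re :=
      funext (hu0i i)
    rw [this]
    exact Complex.continuous_re.comp (S_continuous (hcs i))
  have hd : ∀ i k, ‖fr (fun x => (m + fld a 0 (x - (0 : ℝ) • m)) i - u₀ x i) k‖
      ≤ ‖w k‖ + tA k := by
    intro i k
    rw [fr_sub (hcont0 i) (hsp i).smooth.continuous, hfru]
    by_cases hk : k = 0
    · rw [hk, if_pos rfl, ha.zero 0 le_rfl, hm0, Pi.zero_apply, add_zero, sub_self, norm_zero]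
      exact add_nonneg (norm_nonneg _) (htA0 _)
    · rw [if_neg hk, zero_add, ha0, hv0]
      by_cases hkL : len k ≤ L
      · rw [hzin k ((hZmem k).2 ⟨hk, hkL⟩)]
        have : (vf u₀ k + w k) i - fr (fun x => u₀ x i) k = w k i := by
          rw [Pi.add_apply]; show fr _ k + _ - _ = _; ring
        rw [this]
        exact (norm_le_pi_norm _ i).trans (le_add_of_nonneg_right (htA0 k))
      · rw [hzs k (fun h => hkL ((hZmem k).1 h).2)]
        have : ((0 : C3) + w k) i - fr (fun x => u₀ x i) k = w k i - vf u₀ k i := by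
          rw [zero_add]; rfl
        rw [this]
        refine (norm_sub_le _ _).trans (add_le_add (norm_le_pi_norm _ i) ?_)
        rw [htA]; dsimp only; rw [if_neg hkL]
        exact norm_le_pi_norm _ i
  have hws : Summable fun k => ‖w k‖ := summable_of_ne_finset_zero (s := B) fun k hk => by
    rw [hwB k hk, norm_zero]
  set H₁ : ℝ → ℝ := fun t => ∑ k ∈ B, hm t k * ‖w k‖ with hH₁
  set G : ℝ → ℝ := fun t => ∑' k, hm t k * tA k with hG
  have hG0 : ∀ t, 0 ≤ G t := fun t => tsum_nonneg fun k => mul_nonneg (hm_pos _ _).le (htA0 k)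
  have hH0 : ∀ t, 0 ≤ H₁ t := fun t => Finset.sum_nonneg fun k _ =>
    mul_nonneg (hm_pos _ _).le (norm_nonneg _)
  have hGs : ∀ t, 0 ≤ t → Summable fun k => hm t k * tA k := fun t ht =>
    Summable.of_nonneg_of_le (fun k => mul_nonneg (hm_pos _ _).le (htA0 k))
      (fun k => mul_le_of_le_one_left (htA0 k) (hm_le_one ht k)) htAs
  have hheat : ∀ t, 0 < t → ∀ x i,
      |heat t (fun y => (m + fld a 0 (y - (0 : ℝ) • m)) i - u₀ y i) x| ≤ H₁ t + G t := by
    intro t ht x i
    have hs : Summable fun k => ‖fr (fun x => (m + fld a 0 (x - (0 : ℝ) • m)) i - u₀ x i) k‖ :=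
      Summable.of_nonneg_of_le (fun _ => norm_nonneg _) (hd i) (hws.add htAs)
    refine (heat_bd hs ht.le x).trans ?_
    have hsw : Summable fun k => hm t k * ‖w k‖ :=
      summable_of_ne_finset_zero (s := B) fun k hk => by rw [hwB k hk, norm_zero, mul_zero]
    have e : H₁ t = ∑' k, hm t k * ‖w k‖ := by
      rw [tsum_eq_sum (s := B) fun k hk => by rw [hwB k hk, norm_zero, mul_zero]]
    rw [e, hG]
    dsimp only
    rw [← hsw.tsum_add (hGs t ht.le)]
    refine Summable.tsum_le_tsum (fun k => ?_) ?_ (hsw.add (hGs t ht.le))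
    · rw [← mul_add]
      exact mul_le_mul_of_nonneg_left (hd i k) (hm_pos _ _).le
    · exact Summable.of_nonneg_of_le (fun k => mul_nonneg (hm_pos _ _).le (norm_nonneg _))
        (fun k => mul_le_of_le_one_left (norm_nonneg _) (hm_le_one ht.le k)) hs
  have htail : ∑' k, tA k ≤ min (δ / 2) ν := hL
  have hGsq : ∀ t, 0 < t → G t ≤ (δ / 2) / Real.sqrt t := by
    intro t ht
    have : G t ≤ ∑' k, 1 / Real.sqrt t * tA k := by
      refine Summable.tsum_le_tsum (fun k => ?_) (hGs t ht.le) (htAs.mul_left _)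
      by_cases hk : k = 0
      · rw [hk, htAz]; simp
      · exact mul_le_mul_of_nonneg_right (hm_le ht hk) (htA0 k)
    refine this.trans ?_
    rw [tsum_mul_left, one_div, ← div_eq_inv_mul]
    exact div_le_div_of_nonneg_right (htail.trans (min_le_left _ _)) (Real.sqrt_nonneg _)
  have hGν : ∀ t, 0 ≤ t → G t ≤ ν := by
    intro t ht
    refine (Summable.tsum_le_tsum (fun k => ?_) (hGs t ht) htAs).trans
      (htail.trans (min_le_right _ _))
    exact mul_le_of_le_one_left (htA0 k) (hm_le_one ht k)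
  obtain ⟨hGi, hGi2⟩ := int_heat htAs htA0 htAz
  have hheat2 : ∀ t, 0 < t → ∀ x i,
      |heat t (fun y => (m + fld a 0 (y - (0 : ℝ) • m)) i - u₀ y i) x| ≤ δ / Real.sqrt t := by
    intro t ht x i
    refine (hheat t ht x i).trans ?_
    have e1 : H₁ t ≤ δ₁ / Real.sqrt t := hwh t ht
    have e2 := hGsq t ht
    have e3 : δ₁ / Real.sqrt t ≤ (δ / 4) / Real.sqrt t :=
      div_le_div_of_nonneg_right (min_le_left _ _) (Real.sqrt_nonneg _)
    have e4 : (δ / 4) / Real.sqrt t + (δ / 2) / Real.sqrt t ≤ δ / Real.sqrt t := by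
      rw [← add_div]
      exact div_le_div_of_nonneg_right (by linarith) (Real.sqrt_nonneg _)
    linarith
  refine ⟨fun t x => m + fld a t (x - t • m), fun t x => p t (x - t • m),
    fun T => galilei (hp T) m, ?_, ?_, ?_⟩
  · intro k hk
    funext i
    show fr (fun x => (m + fld a 0 (x - (0 : ℝ) • m)) i) k = fr (fun x => u₀ x i) k
    rw [hfru]
    by_cases hk0 : k = 0
    · rw [hk0, if_pos rfl, ha.zero 0 le_rfl, hm0, Pi.zero_apply, add_zero]
    · rw [if_neg hk0, zero_add, ha0, hv0, hwR k hk, add_zero,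
        hzin k ((hZmem k).2 ⟨hk0, hk.trans hRL'⟩)]
      rfl
  · have hsq : ∀ t, (Real.sqrt (2 * H₁ t ^ 2 + 2 * ν * G t)) ^ 2
        = 2 * H₁ t ^ 2 + 2 * ν * G t := fun t =>
      Real.sq_sqrt (by have := hG0 t; positivity)
    have hHc : Continuous H₁ := by
      rw [hH₁]
      unfold hm
      fun_prop
    have hHi : IntegrableOn (fun t => H₁ t ^ 2) (Ioi 0) := by
      refine integrableOn_Ioi_of_intervalIntegral_norm_bounded
        (C₀ * ν * ∑ k ∈ Z, ‖z k‖ / len k) 0 (fun i : ℝ => ?_) tendsto_id ?_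
      · exact (Continuous.integrableOn_Icc (by fun_prop)).mono_set Ioc_subset_Icc_self
      · filter_upwards [eventually_ge_atTop 0] with T hT
        refine le_trans (le_of_eq ?_) (hwi T hT)
        refine intervalIntegral.integral_congr fun t _ => ?_
        show ‖H₁ t ^ 2‖ = _
        rw [Real.norm_of_nonneg (by positivity)]
        rfl
    have hHle : ∫ t in Ioi (0 : ℝ), H₁ t ^ 2 ≤ C₀ * ν * ∑ k ∈ Z, ‖z k‖ / len k := by
      refine le_of_tendsto (intervalIntegral_tendsto_integral_Ioi 0 hHi tendsto_id) ?_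
      filter_upwards [eventually_ge_atTop 0] with T hT
      exact hwi T hT
    have hint1 : IntegrableOn (fun t => 2 * H₁ t ^ 2 + 2 * ν * G t) (Ioi 0) :=
      (hHi.const_mul 2).add (hGi.const_mul (2 * ν))
    set h : ℝ → ℝ := fun t => min (Real.sqrt (2 * H₁ t ^ 2 + 2 * ν * G t)) (δ / Real.sqrt t)
      with hh
    have hh0 : ∀ t, 0 ≤ h t := fun t => le_min (Real.sqrt_nonneg _)
      (div_nonneg hδ.le (Real.sqrt_nonneg _))
    have hhle : ∀ t, h t ^ 2 ≤ 2 * H₁ t ^ 2 + 2 * ν * G t := fun t => by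
      rw [← hsq t]
      exact pow_le_pow_left₀ (hh0 t) (min_le_left _ _) 2
    have hmeas : AEStronglyMeasurable (fun t => h t ^ 2) (volume.restrict (Ioi 0)) := by
      refine AEStronglyMeasurable.pow ?_ 2
      refine AEStronglyMeasurable.inf ?_ ?_
      · exact Real.continuous_sqrt.comp_aestronglyMeasurable hint1.aestronglyMeasurable
      · exact (Measurable.aestronglyMeasurable (by fun_prop))
    have hint2 : IntegrableOn (fun t => h t ^ 2) (Ioi 0) := by
      refine Integrable.mono' hint1 hmeas (ae_of_all _ fun t => ?_)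
      rw [Real.norm_of_nonneg (by positivity)]
      exact hhle t
    refine ⟨h, fun t ht => ⟨fun x i => ?_, min_le_right _ _⟩, hint2, ?_⟩
    · refine le_min ((hheat t ht x i).trans ?_) (hheat2 t ht x i)
      apply Real.le_sqrt_of_sq_le
      have e1 := hGν t ht.le
      have e2 := hG0 t
      nlinarith [sq_nonneg (H₁ t - G t), mul_le_mul_of_nonneg_left e1 e2]
    · refine (integral_mono hint2 hint1 hhle).trans ?_
      rw [integral_add (hHi.const_mul 2) (hGi.const_mul (2 * ν)), integral_const_mul,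
        integral_const_mul]
      have hlen : Summable fun k => A k / len k := by
        refine Summable.of_nonneg_of_le (fun k => div_nonneg (hA0 k) (GD.len_nonneg k))
          (fun k => ?_) hAs
        by_cases hk : k = 0
        · rw [hk, len_zero, div_zero]; exact hA0 0
        · exact div_le_self (hA0 k) (one_le_len hk)
      have f1 : ∑ k ∈ Z, ‖z k‖ / len k ≤ ∑' k, A k / len k := by
        rw [Finset.sum_congr rfl fun k hk => by rw [hzin k hk]]
        exact hlen.sum_le_tsum Z fun k _ => div_nonneg (hA0 k) (GD.len_nonneg k)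
      have f2 : ∑' k, tA k / len k ≤ ∑' k, A k / len k := by
        refine Summable.tsum_le_tsum (fun k => ?_) ?_ hlen
        · exact div_le_div_of_nonneg_right (htAle k) (GD.len_nonneg k)
        · exact Summable.of_nonneg_of_le (fun k => div_nonneg (htA0 k) (GD.len_nonneg k))
            (fun k => div_le_div_of_nonneg_right (htAle k) (GD.len_nonneg k)) hlen
      have f3 : 2 * ∫ t in Ioi (0 : ℝ), H₁ t ^ 2 ≤ 2 * (C₀ * ν * ∑' k, A k / len k) := by
        have := mul_le_mul_of_nonneg_left f1 (by positivity : 0 ≤ C₀ * ν)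
        linarith
      have f4 : 2 * ν * ∫ t in Ioi (0 : ℝ), G t ≤ 2 * ν * ∑' k, A k / len k :=
        mul_le_mul_of_nonneg_left (hGi2.trans f2) (by positivity)
      calc _ ≤ 2 * (C₀ * ν * ∑' k, A k / len k) + 2 * ν * ∑' k, A k / len k := add_le_add f3 f4
        _ = (2 * C₀ + 2) * ν * ∑' k, A k / len k := by ring
  · intro t ht x i
    have ht0 : 0 ≤ t := hδ.le.trans ht
    have e : (m + fld a t (x - t • m)) i - ∫ y in cube, u₀ y i = fld a t (x - t • m) i := by
      rw [Pi.add_apply, hm']; ring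
    show |(m + fld a t (x - t • m)) i - ∫ y in cube, u₀ y i| ≤ δ
    rw [e]
    refine (Complex.abs_re_le_norm _).trans ((norm_S_le (hsa t ht0 i) _).trans ?_)
    refine le_trans ?_ (hdecay t (hs2.trans ht))
    exact Summable.tsum_le_tsum (fun k => norm_le_pi_norm _ i) (hsa t ht0 i).norm (hsn t ht0)

end Pool.Agent.Run7.h32.GD
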