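import Pool.Agent.Run7.h32.GD.Smo

/-!
Piece P3: coefficient solutions give smooth physical solutions.
-/

set_option autoImplicit false

open MeasureTheory Set Filter Topology
open scoped ContDiff

namespace Pool.Agent.Run7.h32.GD

open H459R3.NS Pool.Agent.Run7.h782.GD

lemma Gd.sum3 {n : ℕ} {c : Fin 3 → ℝ → K3 → ℂ} (h : ∀ j, Gd n (c j)) :
    Gd n (fun t k => ∑ j, c j t k) := by
  have : (fun t k => ∑ j, c j t k) = fun t k => c 0 t k + (c 1 t k + c 2 t k) := by
    funext t k; rw [Fin.sum_univ_three]; ring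
  rw [this]
  exact (h 0).add ((h 1).add (h 2))

lemma mul_sq : Mul fun k : K3 => (h782.GD.sq k : ℂ) := by
  have : (fun k : K3 => (h782.GD.sq k : ℂ)) = fun k => (k 0 : ℂ) * (k 0 : ℂ) +
      ((k 1 : ℂ) * (k 1 : ℂ) + (k 2 : ℂ) * (k 2 : ℂ)) := by
    funext k; unfold h782.GD.sq; rw [Fin.sum_univ_three]; push_cast; ring
  rw [this]
  exact ((mul_coord 0).mul (mul_coord 0)).add (((mul_coord 1).mul (mul_coord 1)).add
    ((mul_coord 2).mul (mul_coord 2)))

lemma mul_lam (ν : ℝ) : Mul fun k : K3 => (-(lam ν k : ℝ) : ℂ) := by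
  have : (fun k : K3 => (-(lam ν k : ℝ) : ℂ)) =
      fun k => (-(4 * Real.pi ^ 2 * ν : ℝ) : ℂ) * (h782.GD.sq k : ℂ) := by
    funext k; unfold lam; push_cast; ring
  rw [this]
  exact (mul_const _).mul mul_sq

lemma mul_riesz (i j : Fin 3) : Mul fun k : K3 => (k i : ℂ) * (k j : ℂ) / (h782.GD.sq k : ℂ) := by
  refine (mul_const 1).of_le fun k => ?_
  rw [norm_one, norm_div, norm_mul, Complex.norm_intCast, Complex.norm_intCast, Complex.norm_real,
    Real.norm_of_nonneg (sq_nonneg' k)]
  apply div_le_one_of_le₀ _ (sq_nonneg' k)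
  have h1 := abs_le_len k i
  have h2 := abs_le_len k j
  have h3 : len k * len k = h782.GD.sq k := Real.mul_self_sqrt (sq_nonneg' k)
  rw [← h3]
  exact mul_le_mul h1 h2 (abs_nonneg _) (len_nonneg _)

/-- the `i`-th component of the coefficients -/
def cmp (a : ℝ → Cf) (i : Fin 3) (t : ℝ) (k : K3) : ℂ := a t k i

/-- the coefficients of `div (a ⊗ a)` divided by `2 π i` -/
noncomputable def Nn (a : ℝ → Cf) (i : Fin 3) (t : ℝ) (k : K3) : ℂ :=
  ∑ j, (k j : ℂ) * cv (cmp a j t) (cmp a i t) k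

/-- the coefficients of the pressure -/
noncomputable def pk (a : ℝ → Cf) (t : ℝ) (k : K3) : ℂ :=
  ∑ l, ∑ j, -((k l : ℂ) * (k j : ℂ) / (h782.GD.sq k : ℂ)) * cv (cmp a j t) (cmp a l t) k

lemma dec_cmp {ν : ℝ} {a : ℝ → Cf} (h : CSol ν a) (i : Fin 3) : Dec (cmp a i) := by
  obtain ⟨μ, hμ, C, hC⟩ := h.dec
  refine ⟨μ, hμ, max C 0, le_max_right _ _, fun t ht k => ?_⟩
  exact ((norm_le_pi_norm (a t k) i).trans (hC t ht k)).trans
    (mul_le_mul_of_nonneg_right (le_max_left _ _) (Real.exp_pos _).le)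

lemma T_apply {ν : ℝ} {a : ℝ → Cf} (h : CSol ν a) {t : ℝ} (ht : 0 ≤ t) (k : K3) (i : Fin 3) :
    (∑' p : K3, kd k (a t p) • a t (k - p)) i = Nn a i t k := by
  have hs : ∀ i j, Summable fun p => cmp a j t p * cmp a i t (k - p) := fun i j =>
    (dec_cmp h j).summable_cv (dec_cmp h i) ht k
  have hs2 : ∀ i, Summable fun p : K3 => ∑ j, (k j : ℂ) * (cmp a j t p * cmp a i t (k - p)) :=
    fun i => summable_sum fun j _ => (hs i j).mul_left _
  have e : ∀ p i, (kd k (a t p) • a t (k - p)) i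
      = ∑ j, (k j : ℂ) * (cmp a j t p * cmp a i t (k - p)) := by
    intro p i
    rw [Pi.smul_apply, smul_eq_mul, kd, Finset.sum_mul]
    exact Finset.sum_congr rfl fun j _ => by unfold cmp; ring
  have hs3 : Summable fun p : K3 => kd k (a t p) • a t (k - p) := by
    rw [Pi.summable]
    exact fun i => (hs2 i).congr fun p => (e p i).symm
  rw [tsum_apply hs3]
  simp_rw [e]
  rw [Summable.tsum_finsetSum (fun j _ => (hs i j).mul_left _)]
  unfold Nn cv
  exact Finset.sum_congr rfl fun j _ => tsum_mul_left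

lemma nl_apply {ν : ℝ} {a : ℝ → Cf} (h : CSol ν a) {t : ℝ} (ht : 0 ≤ t) (k : K3) (i : Fin 3) :
    nl (a t) (a t) k i = (2 * Real.pi * Complex.I) * Nn a i t k
      + (2 * Real.pi * Complex.I * (k i : ℂ)) * pk a t k := by
  unfold nl
  rw [Pi.smul_apply, smul_eq_mul, prj, T_apply h ht]
  have e : kd k (∑' p : K3, kd k (a t p) • a t (k - p)) / (h782.GD.sq k : ℂ) = -pk a t k := by
    unfold kd pk
    have : ∀ l, (∑' p : K3, (∑ j, (k j : ℂ) * a t p j) • a t (k - p)) l = Nn a l t k := fun l =>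
      T_apply h ht k l
    simp_rw [this]
    rw [Finset.sum_div, ← Finset.sum_neg_distrib]
    refine Finset.sum_congr rfl fun l _ => ?_
    unfold Nn
    rw [Finset.mul_sum, Finset.sum_div, ← Finset.sum_neg_distrib]
    refine Finset.sum_congr rfl fun j _ => ?_
    ring
  rw [e]
  ring

lemma gs_cmp {ν : ℝ} {a : ℝ → Cf} (h : CSol ν a) : ∀ (n : ℕ) (i : Fin 3), Gd n (cmp a i) := by
  have hder : ∀ (i : Fin 3) (k : K3) (t : ℝ), 0 ≤ t → HasDerivWithinAt (fun s => cmp a i s k)
      ((-(lam ν k : ℂ) • a t k - nl (a t) (a t) k) i) (Ici 0) t := fun i k t ht =>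
    (hasDerivWithinAt_pi.1 (h.der t ht k)) i
  intro n
  induction n with
  | zero => exact fun i => ⟨dec_cmp h i, fun _ t ht => (hder i _ t ht).continuousWithinAt⟩
  | succ n ih =>
    intro i
    refine ⟨dec_cmp h i, fun t k => (-(lam ν k : ℂ) • a t k - nl (a t) (a t) k) i, hder i, ?_⟩
    have hN : Gd n (fun t k => Nn a i t k) :=
      Gd.sum3 fun j => ((ih j).cv (ih i)).mul (mul_coord j)
    have hP : Gd n (fun t k => pk a t k) := Gd.sum3 fun l => Gd.sum3 fun j =>
      ((ih j).cv (ih l)).mul ((mul_riesz l j).of_le fun k => (norm_neg _).le)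
    have h1 := (((ih i).mul (mul_lam ν)).add ((hN.mul (mul_const (-(2 * Real.pi * Complex.I)))).add
      (hP.mul ((mul_D i).of_le (m' := fun k => -(2 * Real.pi * Complex.I * (k i : ℂ)))
        fun k => (norm_neg _).le))))
    refine h1.congr fun t ht k => ?_
    rw [Pi.sub_apply, Pi.smul_apply, smul_eq_mul, nl_apply h ht]
    unfold cmp
    ring

lemma gd_pk {ν : ℝ} {a : ℝ → Cf} (h : CSol ν a) (n : ℕ) : Gd n (pk a) :=
  Gd.sum3 fun l => Gd.sum3 fun j =>
      ((gs_cmp h n j).cv (gs_cmp h n l)).mul ((mul_riesz l j).of_le fun k => (norm_neg _).le)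

lemma per_S (c : K3 → ℂ) : Per (S c) := by
  intro i x
  unfold S
  exact tsum_congr fun k => by rw [ee_per k i x]

lemma conj_S {c : K3 → ℂ} (hc : ∀ k, c (-k) = (starRingEnd ℂ) (c k)) (x : V) :
    (starRingEnd ℂ) (S c x) = S c x := by
  unfold S
  rw [Complex.conj_tsum]
  rw [← (Equiv.neg K3).tsum_eq]
  refine tsum_congr fun k => ?_
  rw [Equiv.neg_apply, map_mul, ← hc, neg_neg, ← ee_neg, neg_neg]

lemma S_real {c : K3 → ℂ} (hc : ∀ k, c (-k) = (starRingEnd ℂ) (c k)) (x : V) :
    S c x = ((S c x).re : ℂ) := (Complex.conj_eq_iff_re.1 (conj_S hc x)).symm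

lemma dec_const {c : ℝ → K3 → ℂ} (hc : Dec c) {t : ℝ} (ht : 0 ≤ t) : Dec fun _ => c t := by
  obtain ⟨μ, hμ, C, hC, h⟩ := hc
  exact ⟨μ, hμ, C, hC, fun _ _ k => h t ht k⟩

lemma pd_re {f : V → ℂ} {x : V} (hf : DifferentiableAt ℝ f x) (j : Fin 3) :
    pd j (fun y => (f y).re) x = (pd j f x).re := by
  unfold pd
  have h : HasFDerivAt (fun y => (f y).re) (Complex.reCLM.comp (fderiv ℝ f x)) x :=
    Complex.reCLM.hasFDerivAt.comp x hf.hasFDerivAt
  rw [h.fderiv]
  rfl

lemma differentiableAt_S {c : K3 → ℂ} (hc : Dec fun _ => c) (x : V) :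
    DifferentiableAt ℝ (S c) x := by
  have hz : Gd 0 (fun (_ : ℝ) (_ : K3) => (0 : ℂ)) :=
    ⟨⟨1, one_pos, 0, le_rfl, fun t _ k => by simp⟩, fun k => continuousOn_const⟩
  have h := hasFDerivWithinAt_S (n := 0) hc hz (fun k t _ => hasDerivWithinAt_const _ _ _)
    (z := ((1 : ℝ), x)) zero_le_one
  have h2 : HasFDerivAt (fun y : ℝ × V => S c y.2)
      (Lc (S (fun _ => 0) x) (fun j => S (D j c) x)) ((1 : ℝ), x) :=
    h.hasFDerivAt (prod_mem_nhds (Ici_mem_nhds zero_lt_one) univ_mem)
  have h3 : HasFDerivAt (fun y : V => ((1 : ℝ), y)) (ContinuousLinearMap.inr ℝ ℝ V) x :=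
    hasFDerivAt_prodMk_right 1 x
  exact (h2.comp x h3).differentiableAt

lemma pd_reS {c : K3 → ℂ} (hc : Dec fun _ => c) (x : V) (j : Fin 3) :
    pd j (fun y => (S c y).re) x = (S (D j c) x).re := by
  rw [pd_re (differentiableAt_S hc x), hasFDerivAt_S hc]

/-- **Piece P3.** -/
theorem stmPhys : StmPhys := by
  intro ν a h
  have hg := gs_cmp h
  have hdec : ∀ i, Dec (cmp a i) := fun i => dec_cmp h i
  refine ⟨fun t x => (S (pk a t) x).re, fun T => ?_⟩
  have hsub : (Ico 0 T ×ˢ univ : Set (ℝ × V)) ⊆ Ici 0 ×ˢ univ :=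
    prod_mono (fun t ht => ht.1) le_rfl
  refine ⟨?_, ?_, ?_, ?_, ?_, ?_⟩
  · refine contDiffOn_pi.2 fun i => ?_
    exact Complex.reCLM.contDiff.comp_contDiffOn
      ((contDiffOn_S_infty (c := cmp a i) fun n => hg n i).mono hsub)
  · exact Complex.reCLM.contDiff.comp_contDiffOn
      ((contDiffOn_S_infty (c := pk a) fun n => gd_pk h n).mono hsub)
  · intro t ht j x
    funext i
    show (S (cmp a i t) _).re = (S (cmp a i t) _).re
    rw [per_S]
  · intro t ht j x
    show (S (pk a t) _).re = (S (pk a t) _).re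
    rw [per_S]
  · intro t ht x
    have h1 : ∀ i, pd i (fun y => fld a t y i) x = (S (D i (cmp a i t)) x).re := fun i =>
      pd_reS (c := cmp a i t) (dec_const (hdec i) ht.1) x i
    simp_rw [h1]
    rw [← Complex.re_sum]
    have h2 : ∑ i, S (D i (cmp a i t)) x = 0 := by
      unfold S
      rw [← Summable.tsum_finsetSum (fun i _ =>
        summable_term (((hdec i).D i).summable ht.1) x)]
      have : ∀ k, ∑ i, D i (cmp a i t) k * ee k x = 0 := by
        intro k
        rw [← Finset.sum_mul]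
        have hd := h.div t ht.1 k
        unfold kd at hd
        have e : ∑ i, D i (cmp a i t) k = (2 * Real.pi * Complex.I) * ∑ i, (k i : ℂ) * a t k i := by
          rw [Finset.mul_sum]
          refine Finset.sum_congr rfl fun i _ => ?_
          unfold D cmp; ring
        rw [e, hd, mul_zero, zero_mul]
      simp_rw [this]
      exact tsum_zero
    rw [h2]; rfl
  · intro t ht x i
    have ht0 : 0 ≤ t := ht.1.le
    -- time derivative
    have hder : ∀ k s, 0 ≤ s → HasDerivWithinAt (fun s => cmp a i s k)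
        ((-(lam ν k : ℂ) • a s k - nl (a s) (a s) k) i) (Ici 0) s := fun k s hs =>
      (hasDerivWithinAt_pi.1 (h.der s hs k)) i
    obtain ⟨-, c', hc'1, hc'2⟩ := hg 1 i
    have hce : ∀ k, c' t k = (-(lam ν k : ℂ) • a t k - nl (a t) (a t) k) i := fun k =>
      (uniqueDiffOn_Ici (0 : ℝ) t ht0).eq_deriv _ (hc'1 k t ht0) (hder k t ht0)
    have hdt : deriv (fun s => fld a s x i) t = (S (c' t) x).re := by
      have h1 := hasDerivWithinAt_S (hdec i) hc'2 hc'1 ht0 x
      have h2 : HasDerivAt (fun s => S (cmp a i s) x) (S (c' t) x) t :=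
        h1.hasDerivAt (Ici_mem_nhds ht.1)
      exact (Complex.reCLM.hasFDerivAt.comp_hasDerivAt t h2).deriv
    have hpd : ∀ j y, pd j (fun y => fld a t y i) y = (S (D j (cmp a i t)) y).re := fun j y =>
      pd_reS (c := cmp a i t) (dec_const (hdec i) ht0) y j
    have hpd2 : ∀ j, pd j (pd j (fun y => fld a t y i)) x
        = (S (D j (D j (cmp a i t))) x).re := by
      intro j
      have : pd j (fun y => fld a t y i) = fun y => (S (D j (cmp a i t)) y).re := by
        funext y; exact hpd j y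
      rw [this]
      exact pd_reS (c := D j (cmp a i t)) (dec_const ((hdec i).D j) ht0) x j
    have hpp : pd i (fun y => (S (pk a t) y).re) x = (S (D i (pk a t)) x).re :=
      pd_reS (dec_const (gd_pk h 0).dec ht0) x i
    have hreal : ∀ j, S (cmp a j t) x = ((fld a t x j : ℝ) : ℂ) := fun j =>
      S_real (fun k => h.herm t ht0 k j) x
    rw [hdt, hpp]
    simp_rw [hpd, hpd2]
    have hprod : ∀ j, fld a t x j * (S (D j (cmp a i t)) x).re
        = (S (cv (cmp a j t) (D j (cmp a i t))) x).re := by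
      intro j
      rw [← S_mul ((hdec j).summable ht0) (((hdec i).D j).summable ht0), hreal j,
        Complex.re_ofReal_mul]
    simp_rw [hprod]
    rw [← Complex.re_sum, ← Complex.re_sum, ← Complex.add_re, ← Complex.re_ofReal_mul,
      ← Complex.sub_re]
    congr 1
    have s1 : Summable fun k => c' t k * ee k x := summable_term (hc'2.dec.summable ht0) x
    have s2 : ∀ j, Summable fun k => cv (cmp a j t) (D j (cmp a i t)) k * ee k x := fun j =>
      summable_term ((((hdec j).cv ((hdec i).D j))).summable ht0) x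
    have s3 : ∀ j, Summable fun k => D j (D j (cmp a i t)) k * ee k x := fun j =>
      summable_term (((((hdec i).D j)).D j).summable ht0) x
    have s4 : Summable fun k => D i (pk a t) k * ee k x :=
      summable_term (((gd_pk h 0).dec.D i).summable ht0) x
    unfold S
    rw [← Summable.tsum_finsetSum (fun j _ => s2 j), ← Summable.tsum_finsetSum (fun j _ => s3 j),
      ← s1.tsum_add (summable_sum fun j _ => s2 j), ← tsum_mul_left,
      ← ((summable_sum fun j _ => s3 j).mul_left _).tsum_sub s4]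
    refine tsum_congr fun k => ?_
    rw [hce k, Pi.sub_apply, Pi.smul_apply, smul_eq_mul, nl_apply h ht0]
    have hcv : ∑ j, cv (cmp a j t) (D j (cmp a i t)) k
        = (2 * Real.pi * Complex.I) * Nn a i t k := by
      have hsA : ∀ j, Summable fun p => cmp a j t p * cmp a i t (k - p) := fun j =>
        (hdec j).summable_cv (hdec i) ht0 k
      have hsB : ∀ j, Summable fun p => D j (cmp a j t) p * cmp a i t (k - p) := fun j =>
        ((hdec j).D j).summable_cv (hdec i) ht0 k
      have e1 : ∀ j, cv (cmp a j t) (D j (cmp a i t)) k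
          = (2 * Real.pi * Complex.I * (k j : ℂ)) * cv (cmp a j t) (cmp a i t) k
            - ∑' p, D j (cmp a j t) p * cmp a i t (k - p) := by
        intro j
        unfold cv
        rw [← tsum_mul_left, ← ((hsA j).mul_left _).tsum_sub (hsB j)]
        refine tsum_congr fun p => ?_
        unfold D
        have : ((k - p : K3) j : ℂ) = (k j : ℂ) - (p j : ℂ) := by
          rw [Pi.sub_apply]; push_cast; ring
        rw [this]; ring
      simp_rw [e1]
      rw [Finset.sum_sub_distrib, ← Summable.tsum_finsetSum (fun j _ => hsB j)]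
      have e2 : ∀ p, ∑ j, D j (cmp a j t) p * cmp a i t (k - p) = 0 := by
        intro p
        rw [← Finset.sum_mul]
        have hd := h.div t ht0 p
        unfold kd at hd
        have e : ∑ j, D j (cmp a j t) p = (2 * Real.pi * Complex.I) * ∑ j, (p j : ℂ) * a t p j := by
          rw [Finset.mul_sum]
          refine Finset.sum_congr rfl fun i _ => ?_
          unfold D cmp; ring
        rw [e, hd, mul_zero, zero_mul]
      simp_rw [e2]
      rw [tsum_zero, sub_zero, Nn, Finset.mul_sum]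
      exact Finset.sum_congr rfl fun j _ => by ring
    rw [← Finset.sum_mul, ← Finset.sum_mul, hcv]
    have hDD : ∑ j, D j (D j (cmp a i t)) k = -(4 * Real.pi ^ 2 * h782.GD.sq k : ℝ) * a t k i := by
      have e : ∀ j, D j (D j (cmp a i t)) k = -(4 * Real.pi ^ 2 * (k j : ℂ) ^ 2) * a t k i := by
        intro j
        unfold D cmp
        linear_combination (4 * (Real.pi : ℂ) ^ 2 * (k j : ℂ) ^ 2 * a t k i) * Complex.I_sq
      simp_rw [e]
      unfold h782.GD.sq
      push_cast
      rw [← Finset.sum_mul, Finset.sum_neg_distrib, Finset.mul_sum]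
    rw [hDD]
    unfold D lam
    push_cast
    ring

end Pool.Agent.Run7.h32.GD
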