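import Pool.Agent.Run7.h782.GD.Defs
import Pool.Agent.H459R3.NS.Phys2

/-!
Families of Fourier coefficients with exponential decay, depending smoothly on time.
-/

set_option autoImplicit false

open MeasureTheory Set Filter Topology
open scoped ContDiff

namespace Pool.Agent.Run7.h32.GD

open H459R3.NS Pool.Agent.Run7.h782.GD

/-! ### lengths -/

lemma sq_nonneg' (k : K3) : 0 ≤ h782.GD.sq k := Finset.sum_nonneg fun _ _ => by positivity

lemma len_nonneg (k : K3) : 0 ≤ len k := Real.sqrt_nonneg _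

lemma len_eq (k : K3) :
    len k = ‖(WithLp.toLp 2 (fun j => (k j : ℝ)) : EuclideanSpace ℝ (Fin 3))‖ := by
  rw [EuclideanSpace.norm_eq]
  unfold len h782.GD.sq
  congr 1
  refine Finset.sum_congr rfl fun j _ => ?_
  simp

lemma len_add_le (k l : K3) : len (k + l) ≤ len k + len l := by
  rw [len_eq, len_eq, len_eq]
  refine le_trans (le_of_eq ?_) (norm_add_le _ _)
  congr 1
  ext j
  simp

lemma abs_le_len (k : K3) (j : Fin 3) : |(k j : ℝ)| ≤ len k := by
  unfold len
  rw [← Real.sqrt_sq_eq_abs]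
  apply Real.sqrt_le_sqrt
  unfold h782.GD.sq
  exact Finset.single_le_sum (f := fun j => (k j : ℝ) ^ 2) (fun i _ => by positivity)
    (Finset.mem_univ j)

lemma len_sub (k p : K3) : len k ≤ len p + len (k - p) := by
  have := len_add_le p (k - p)
  simpa using this

lemma summable_exp_int {μ : ℝ} (hμ : 0 < μ) :
    Summable fun n : ℤ => Real.exp (-(μ * |(n : ℝ)|)) := by
  have h1 : Summable fun n : ℕ => Real.exp (-(μ * (n : ℝ))) := by
    have : (fun n : ℕ => Real.exp (-(μ * (n : ℝ)))) = fun n : ℕ => (Real.exp (-μ)) ^ n := by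
      funext n
      rw [← Real.exp_nat_mul]
      congr 1; ring
    rw [this]
    exact summable_geometric_of_lt_one (Real.exp_pos _).le (by
      rw [Real.exp_lt_one_iff]; linarith)
  refine Summable.of_nat_of_neg (f := fun n : ℤ => Real.exp (-(μ * |(n : ℝ)|))) ?_ ?_
  · refine h1.congr fun n => ?_
    simp
  · refine h1.congr fun n => ?_
    simp

lemma summable_exp {μ : ℝ} (hμ : 0 < μ) : Summable fun k : K3 => Real.exp (-(μ * len k)) := by
  have hμ' : 0 < μ / 3 := by positivity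
  have h0 := summable_exp_int hμ'
  have h1 := h0.mul_of_nonneg h0 (fun n => by positivity) (fun n => by positivity)
  have h2 := h0.mul_of_nonneg h1 (fun n => by positivity) (fun p => by positivity)
  have h3 := (eqv.summable_iff (f := fun p : ℤ × ℤ × ℤ =>
    Real.exp (-(μ / 3 * |(p.1 : ℝ)|)) * (Real.exp (-(μ / 3 * |(p.2.1 : ℝ)|))
      * Real.exp (-(μ / 3 * |(p.2.2 : ℝ)|))))).2 h2
  refine Summable.of_nonneg_of_le (fun k => by positivity) (fun k => ?_) h3
  simp only [Function.comp_apply]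
  rw [← Real.exp_add, ← Real.exp_add]
  apply Real.exp_le_exp.2
  have e0 := abs_le_len k 0
  have e1 := abs_le_len k 1
  have e2 := abs_le_len k 2
  have : (eqv k).1 = k 0 := rfl
  have h1' : (eqv k).2.1 = k 1 := rfl
  have h2' : (eqv k).2.2 = k 2 := rfl
  rw [this, h1', h2']
  nlinarith

/-! ### differentiation of series -/

/-- extension of a function from `[0, ∞)` to `ℝ` -/
noncomputable def ext {E : Type*} [AddCommGroup E] [Module ℝ E] (f f' : ℝ → E) (t : ℝ) : E :=
  f (max t 0) + (min t 0) • f' 0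

lemma ext_of_nonneg {E : Type*} [AddCommGroup E] [Module ℝ E] {f f' : ℝ → E} {t : ℝ}
    (ht : 0 ≤ t) : ext f f' t = f t := by
  unfold ext
  rw [max_eq_left ht, min_eq_right ht, zero_smul, add_zero]

lemma ext_of_nonpos {E : Type*} [AddCommGroup E] [Module ℝ E] {f f' : ℝ → E} {t : ℝ}
    (ht : t ≤ 0) : ext f f' t = f 0 + t • f' 0 := by
  unfold ext
  rw [max_eq_right ht, min_eq_left ht]

lemma hasDerivAt_ext {E : Type*} [NormedAddCommGroup E] [NormedSpace ℝ E] {f f' : ℝ → E}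
    (h : ∀ t, 0 ≤ t → HasDerivWithinAt f (f' t) (Ici 0) t) (t : ℝ) :
    HasDerivAt (ext f f') (f' (max t 0)) t := by
  rcases lt_trichotomy t 0 with ht | ht | ht
  · rw [max_eq_right ht.le]
    have h1 : HasDerivAt (fun s : ℝ => f 0 + s • f' 0) (f' 0) t := by
      have := ((hasDerivAt_id t).smul_const (f' 0)).const_add (f 0)
      simpa using this
    refine h1.congr_of_eventuallyEq ?_
    filter_upwards [Iio_mem_nhds ht] with s hs
    exact ext_of_nonpos (le_of_lt hs)
  · subst ht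
    rw [max_self]
    have h1 : HasDerivWithinAt (ext f f') (f' 0) (Ici 0) 0 :=
      (h 0 le_rfl).congr (fun s hs => ext_of_nonneg hs) (ext_of_nonneg le_rfl)
    have h2 : HasDerivWithinAt (ext f f') (f' 0) (Iic 0) 0 := by
      have h3 : HasDerivAt (fun s : ℝ => f 0 + s • f' 0) (f' 0) 0 := by
        have := ((hasDerivAt_id (0 : ℝ)).smul_const (f' 0)).const_add (f 0)
        simpa using this
      exact h3.hasDerivWithinAt.congr (fun s hs => ext_of_nonpos hs) (ext_of_nonpos le_rfl)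
    have h4 := h1.union h2
    rwa [Ici_union_Iic, hasDerivWithinAt_univ] at h4
  · rw [max_eq_left ht.le]
    have h1 : HasDerivAt f (f' t) t := (h t ht.le).hasDerivAt (Ici_mem_nhds ht)
    refine h1.congr_of_eventuallyEq ?_
    filter_upwards [Ioi_mem_nhds ht] with s hs
    exact ext_of_nonneg (le_of_lt hs)

/-- termwise differentiation on `[0, ∞)` -/
lemma hasDerivWithinAt_tsum_Ici {ι : Type*} {f f' : ι → ℝ → ℂ} {u : ι → ℝ} (hu : Summable u)
    (h : ∀ i t, 0 ≤ t → HasDerivWithinAt (f i) (f' i t) (Ici 0) t)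
    (hb : ∀ i t, 0 ≤ t → ‖f' i t‖ ≤ u i) (h0 : Summable fun i => f i 0) {t : ℝ} (ht : 0 ≤ t) :
    HasDerivWithinAt (fun s => ∑' i, f i s) (∑' i, f' i t) (Ici 0) t := by
  have h1 : HasDerivAt (fun s => ∑' i, ext (f i) (f' i) s) (∑' i, f' i (max t 0)) t := by
    refine hasDerivAt_tsum (y₀ := 0) hu (fun i s => hasDerivAt_ext (h i) s)
      (fun i s => hb i _ (le_max_right _ _)) ?_ t
    refine h0.congr fun i => ?_
    exact (ext_of_nonneg le_rfl).symm
  rw [max_eq_left ht] at h1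
  exact h1.hasDerivWithinAt.congr (fun s hs => tsum_congr fun i => (ext_of_nonneg hs).symm)
    (tsum_congr fun i => (ext_of_nonneg ht).symm)

/-! ### the class of families -/

/-- uniform exponential decay -/
def Dec (c : ℝ → K3 → ℂ) : Prop :=
  ∃ μ > 0, ∃ C : ℝ, 0 ≤ C ∧ ∀ t, 0 ≤ t → ∀ k, ‖c t k‖ ≤ C * Real.exp (-(μ * len k))

/-- `n` times differentiable in time with exponential decay -/
def Gd : ℕ → (ℝ → K3 → ℂ) → Prop
  | 0, c => Dec c ∧ ∀ k, ContinuousOn (fun t => c t k) (Ici 0)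
  | n + 1, c => Dec c ∧ ∃ c' : ℝ → K3 → ℂ,
      (∀ k t, 0 ≤ t → HasDerivWithinAt (fun s => c s k) (c' t k) (Ici 0) t) ∧ Gd n c'

lemma Gd.dec {n : ℕ} {c : ℝ → K3 → ℂ} (h : Gd n c) : Dec c := by
  cases n with
  | zero => exact h.1
  | succ n => exact h.1

lemma Gd.cont {n : ℕ} {c : ℝ → K3 → ℂ} (h : Gd n c) (k : K3) :
    ContinuousOn (fun t => c t k) (Ici 0) := by
  cases n with
  | zero => exact h.2 k
  | succ n =>
    obtain ⟨c', h1, -⟩ := h.2
    exact fun t ht => (h1 k t ht).continuousWithinAt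

lemma Gd.pred {n : ℕ} : ∀ {c : ℝ → K3 → ℂ}, Gd (n + 1) c → Gd n c := by
  induction n with
  | zero => exact fun h => ⟨h.dec, h.cont⟩
  | succ n ih =>
    intro c h
    obtain ⟨c', h1, h2⟩ := h.2
    exact ⟨h.1, c', h1, ih h2⟩

lemma Dec.summable {c : ℝ → K3 → ℂ} (h : Dec c) {t : ℝ} (ht : 0 ≤ t) : Summable (c t) := by
  obtain ⟨μ, hμ, C, hC, h⟩ := h
  exact Summable.of_norm_bounded ((summable_exp hμ).mul_left C) (h t ht)

lemma Dec.congr {c d : ℝ → K3 → ℂ} (h : Dec c) (hd : ∀ t, 0 ≤ t → ∀ k, d t k = c t k) : Dec d := by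
  obtain ⟨μ, hμ, C, hC, h⟩ := h
  exact ⟨μ, hμ, C, hC, fun t ht k => by rw [hd t ht k]; exact h t ht k⟩

lemma Gd.congr {n : ℕ} {c d : ℝ → K3 → ℂ} (h : Gd n c) (hd : ∀ t, 0 ≤ t → ∀ k, d t k = c t k) :
    Gd n d := by
  cases n with
  | zero =>
    exact ⟨h.1.congr hd, fun k => (h.2 k).congr fun t ht => hd t ht k⟩
  | succ n =>
    obtain ⟨c', h1, h2⟩ := h.2
    exact ⟨h.1.congr hd, c', fun k t ht => (h1 k t ht).congr (fun s hs => hd s hs k) (hd t ht k), h2⟩

lemma Dec.add {c d : ℝ → K3 → ℂ} (hc : Dec c) (hd : Dec d) :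
    Dec (fun t k => c t k + d t k) := by
  obtain ⟨μ, hμ, C, hC, h⟩ := hc
  obtain ⟨μ', hμ', C', hC', h'⟩ := hd
  refine ⟨min μ μ', lt_min hμ hμ', C + C', by positivity, fun t ht k => ?_⟩
  refine (norm_add_le _ _).trans ?_
  have h1 : Real.exp (-(μ * len k)) ≤ Real.exp (-(min μ μ' * len k)) := by
    apply Real.exp_le_exp.2
    have := mul_le_mul_of_nonneg_right (min_le_left μ μ') (len_nonneg k)
    linarith
  have h2 : Real.exp (-(μ' * len k)) ≤ Real.exp (-(min μ μ' * len k)) := by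
    apply Real.exp_le_exp.2
    have := mul_le_mul_of_nonneg_right (min_le_right μ μ') (len_nonneg k)
    linarith
  calc ‖c t k‖ + ‖d t k‖ ≤ C * Real.exp (-(μ * len k)) + C' * Real.exp (-(μ' * len k)) :=
        add_le_add (h t ht k) (h' t ht k)
    _ ≤ C * Real.exp (-(min μ μ' * len k)) + C' * Real.exp (-(min μ μ' * len k)) := by gcongr
    _ = _ := by ring

lemma Gd.add {n : ℕ} : ∀ {c d : ℝ → K3 → ℂ}, Gd n c → Gd n d →
    Gd n (fun t k => c t k + d t k) := by
  induction n with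
  | zero => exact fun hc hd => ⟨hc.dec.add hd.dec, fun k => (hc.2 k).add (hd.2 k)⟩
  | succ n ih =>
    intro c d hc hd
    obtain ⟨c', h1, h2⟩ := hc.2
    obtain ⟨d', h1', h2'⟩ := hd.2
    exact ⟨hc.dec.add hd.dec, fun t k => c' t k + d' t k,
      fun k t ht => (h1 k t ht).add (h1' k t ht), ih h2 h2'⟩

/-- multipliers of subexponential growth -/
def Mul (m : K3 → ℂ) : Prop := ∀ μ > 0, ∃ C : ℝ, 0 ≤ C ∧ ∀ k, ‖m k‖ ≤ C * Real.exp (μ * len k)

lemma Dec.mul {c : ℝ → K3 → ℂ} (hc : Dec c) {m : K3 → ℂ} (hm : Mul m) :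
    Dec (fun t k => m k * c t k) := by
  obtain ⟨μ, hμ, C, hC, h⟩ := hc
  obtain ⟨C', hC', h'⟩ := hm (μ / 2) (by positivity)
  refine ⟨μ / 2, by positivity, C' * C, by positivity, fun t ht k => ?_⟩
  rw [norm_mul]
  calc ‖m k‖ * ‖c t k‖ ≤ (C' * Real.exp (μ / 2 * len k)) * (C * Real.exp (-(μ * len k))) :=
        mul_le_mul (h' k) (h t ht k) (norm_nonneg _) (by positivity)
    _ = C' * C * (Real.exp (μ / 2 * len k) * Real.exp (-(μ * len k))) := by ring
    _ = C' * C * Real.exp (-(μ / 2 * len k)) := by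
      rw [← Real.exp_add]; congr 2; ring

lemma Gd.mul {n : ℕ} {m : K3 → ℂ} (hm : Mul m) : ∀ {c : ℝ → K3 → ℂ}, Gd n c →
    Gd n (fun t k => m k * c t k) := by
  induction n with
  | zero => exact fun hc => ⟨hc.dec.mul hm, fun k => continuousOn_const.mul (hc.2 k)⟩
  | succ n ih =>
    intro c hc
    obtain ⟨c', h1, h2⟩ := hc.2
    exact ⟨hc.dec.mul hm, fun t k => m k * c' t k,
      fun k t ht => (h1 k t ht).const_mul _, ih h2⟩

lemma mul_const (z : ℂ) : Mul fun _ => z := fun _ hμ =>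
  ⟨‖z‖, norm_nonneg _, fun k => le_mul_of_one_le_right (norm_nonneg _)
    (Real.one_le_exp (mul_nonneg (le_of_lt hμ) (len_nonneg k)))⟩

lemma mul_coord (j : Fin 3) : Mul fun k => (k j : ℂ) := fun μ hμ => by
  refine ⟨1 / μ, by positivity, fun k => ?_⟩
  have h1 : ‖((k j : ℤ) : ℂ)‖ = |(k j : ℝ)| := by
    rw [Complex.norm_intCast]
  rw [h1]
  have h2 := abs_le_len k j
  have h3 : μ * len k ≤ Real.exp (μ * len k) := by
    have := Real.add_one_le_exp (μ * len k)
    linarith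
  rw [one_div, ← div_eq_inv_mul, le_div_iff₀ hμ]
  nlinarith

lemma Mul.mul {m m' : K3 → ℂ} (h : Mul m) (h' : Mul m') : Mul fun k => m k * m' k := fun μ hμ => by
  obtain ⟨C, hC, h⟩ := h (μ / 2) (half_pos hμ)
  obtain ⟨C', hC', h'⟩ := h' (μ / 2) (half_pos hμ)
  refine ⟨C * C', by positivity, fun k => ?_⟩
  rw [norm_mul]
  calc ‖m k‖ * ‖m' k‖ ≤ (C * Real.exp (μ / 2 * len k)) * (C' * Real.exp (μ / 2 * len k)) :=
        mul_le_mul (h k) (h' k) (norm_nonneg _) (by positivity)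
    _ = C * C' * (Real.exp (μ / 2 * len k) * Real.exp (μ / 2 * len k)) := by ring
    _ = C * C' * Real.exp (μ * len k) := by
      rw [← Real.exp_add]; congr 2; ring

lemma Mul.of_le {m m' : K3 → ℂ} (h : Mul m) (h' : ∀ k, ‖m' k‖ ≤ ‖m k‖) : Mul m' := fun μ hμ => by
  obtain ⟨C, hC, h⟩ := h μ hμ
  exact ⟨C, hC, fun k => (h' k).trans (h k)⟩

lemma Mul.add {m m' : K3 → ℂ} (h : Mul m) (h' : Mul m') : Mul fun k => m k + m' k := fun μ hμ => by
  obtain ⟨C, hC, h⟩ := h μ hμ
  obtain ⟨C', hC', h'⟩ := h' μ hμ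
  refine ⟨C + C', by positivity, fun k => (norm_add_le _ _).trans ?_⟩
  rw [add_mul]
  exact add_le_add (h k) (h' k)

/-! ### convolutions -/

/-- the convolution -/
noncomputable def cv (b c : K3 → ℂ) (k : K3) : ℂ := ∑' p, b p * c (k - p)

lemma cv_bd {μ B C : ℝ} (hμ : 0 < μ) (hB : 0 ≤ B) {b c : K3 → ℂ}
    (hb : ∀ k, ‖b k‖ ≤ B * Real.exp (-(μ * len k))) (hc : ∀ k, ‖c k‖ ≤ C * Real.exp (-(μ * len k)))
    (hC : 0 ≤ C) (k p : K3) : ‖b p * c (k - p)‖
      ≤ B * C * Real.exp (-(μ / 2 * len k)) * Real.exp (-(μ / 2 * len p)) := by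
  rw [norm_mul]
  calc ‖b p‖ * ‖c (k - p)‖
      ≤ (B * Real.exp (-(μ * len p))) * (C * Real.exp (-(μ * len (k - p)))) :=
        mul_le_mul (hb p) (hc _) (norm_nonneg _) (by positivity)
    _ = B * C * (Real.exp (-(μ * len p)) * Real.exp (-(μ * len (k - p)))) := by ring
    _ ≤ B * C * (Real.exp (-(μ / 2 * len k)) * Real.exp (-(μ / 2 * len p))) := by
      rw [← Real.exp_add, ← Real.exp_add]
      refine mul_le_mul_of_nonneg_left (Real.exp_le_exp.2 ?_) (by positivity)
      have h1 := len_sub k p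
      have h2 := len_nonneg (k - p)
      have h3 : μ / 2 * len k ≤ μ / 2 * (len p + len (k - p)) :=
        mul_le_mul_of_nonneg_left h1 (by positivity)
      nlinarith
    _ = _ := by ring

lemma Dec.common {b c : ℝ → K3 → ℂ} (hb : Dec b) (hc : Dec c) : ∃ μ > 0, ∃ C : ℝ, 0 ≤ C ∧
    ∀ t, 0 ≤ t → ∀ k, ‖b t k‖ ≤ C * Real.exp (-(μ * len k)) ∧
      ‖c t k‖ ≤ C * Real.exp (-(μ * len k)) := by
  obtain ⟨μ, hμ, C, hC, h⟩ := hb
  obtain ⟨μ', hμ', C', hC', h'⟩ := hc
  refine ⟨min μ μ', lt_min hμ hμ', max C C', le_max_of_le_left hC, fun t ht k => ?_⟩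
  have h1 : Real.exp (-(μ * len k)) ≤ Real.exp (-(min μ μ' * len k)) := by
    apply Real.exp_le_exp.2
    have := mul_le_mul_of_nonneg_right (min_le_left μ μ') (len_nonneg k)
    linarith
  have h2 : Real.exp (-(μ' * len k)) ≤ Real.exp (-(min μ μ' * len k)) := by
    apply Real.exp_le_exp.2
    have := mul_le_mul_of_nonneg_right (min_le_right μ μ') (len_nonneg k)
    linarith
  exact ⟨(h t ht k).trans (mul_le_mul (le_max_left _ _) h1 (by positivity)
      (le_max_of_le_left hC)), (h' t ht k).trans (mul_le_mul (le_max_right _ _) h2 (by positivity)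
      (le_max_of_le_left hC))⟩

lemma Dec.summable_cv {b c : ℝ → K3 → ℂ} (hb : Dec b) (hc : Dec c) {t : ℝ} (ht : 0 ≤ t) (k : K3) :
    Summable fun p => b t p * c t (k - p) := by
  obtain ⟨μ, hμ, C, hC, h⟩ := hb.common hc
  refine Summable.of_norm_bounded ((summable_exp (half_pos hμ)).mul_left _)
    (fun p => cv_bd hμ hC (fun k => (h t ht k).1) (fun k => (h t ht k).2) hC k p)

lemma Dec.cv {b c : ℝ → K3 → ℂ} (hb : Dec b) (hc : Dec c) :
    Dec (fun t => GD.cv (b t) (c t)) := by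
  obtain ⟨μ, hμ, C, hC, h⟩ := hb.common hc
  have hs := summable_exp (half_pos hμ)
  refine ⟨μ / 2, half_pos hμ, C * C * ∑' p : K3, Real.exp (-(μ / 2 * len p)),
    mul_nonneg (by positivity) (tsum_nonneg fun _ => (Real.exp_pos _).le), fun t ht k => ?_⟩
  have hbd := cv_bd hμ hC (fun k => (h t ht k).1) (fun k => (h t ht k).2) hC k
  refine (tsum_of_norm_bounded ((hs.mul_left _).hasSum) hbd).trans (le_of_eq ?_)
  rw [tsum_mul_left]
  ring

lemma Gd.cv0 {b c : ℝ → K3 → ℂ} (hb : Gd 0 b) (hc : Gd 0 c) :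
    Gd 0 (fun t => GD.cv (b t) (c t)) := by
  refine ⟨hb.dec.cv hc.dec, fun k => ?_⟩
  obtain ⟨μ, hμ, C, hC, h⟩ := hb.dec.common hc.dec
  have hs := summable_exp (half_pos hμ)
  unfold GD.cv
  refine continuousOn_tsum (fun p => (hb.2 p).mul (hc.2 (k - p))) (hs.mul_left
    (C * C * Real.exp (-(μ / 2 * len k)))) fun p t ht => ?_
  exact cv_bd hμ hC (fun k => (h t ht k).1) (fun k => (h t ht k).2) hC k p

lemma Gd.cv {n : ℕ} : ∀ {b c : ℝ → K3 → ℂ}, Gd n b → Gd n c →
    Gd n (fun t => GD.cv (b t) (c t)) := by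
  induction n with
  | zero => exact fun hb hc => hb.cv0 hc
  | succ n ih =>
    intro b c hb hc
    obtain ⟨b', h1, h2⟩ := hb.2
    obtain ⟨c', h1', h2'⟩ := hc.2
    refine ⟨hb.dec.cv hc.dec, fun t k => GD.cv (b' t) (c t) k + GD.cv (b t) (c' t) k, ?_, ?_⟩
    · intro k t ht
      obtain ⟨μ, hμ, C, hC, h⟩ := h2.dec.common hc.dec
      obtain ⟨μ', hμ', C', hC', h'⟩ := hb.dec.common h2'.dec
      have hs := ((summable_exp (half_pos hμ)).mul_left (C * C * Real.exp (-(μ / 2 * len k)))).add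
        ((summable_exp (half_pos hμ')).mul_left (C' * C' * Real.exp (-(μ' / 2 * len k))))
      have key := hasDerivWithinAt_tsum_Ici (f := fun p s => b s p * c s (k - p))
        (f' := fun p s => b' s p * c s (k - p) + b s p * c' s (k - p)) hs
        (fun p s hs => (h1 p s hs).mul (h1' (k - p) s hs)) (fun p s hs => ?_)
        (hb.dec.summable_cv hc.dec le_rfl k) ht
      · have e : (∑' p, (b' t p * c t (k - p) + b t p * c' t (k - p)))
            = GD.cv (b' t) (c t) k + GD.cv (b t) (c' t) k :=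
          (h2.dec.summable_cv hc.dec ht k).tsum_add (hb.dec.summable_cv h2'.dec ht k)
        rw [e] at key
        exact key
      · refine (norm_add_le _ _).trans (add_le_add ?_ ?_)
        · exact cv_bd hμ hC (fun k => (h s hs k).1) (fun k => (h s hs k).2) hC k p
        · exact cv_bd hμ' hC' (fun k => (h' s hs k).1) (fun k => (h' s hs k).2) hC' k p
    · exact (ih h2 hc.pred).add (ih hb.pred h2')

/-- `(k, p) ↦ (p, k - p)` -/
def shr : K3 × K3 ≃ K3 × K3 where
  toFun z := (z.2, z.1 - z.2)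
  invFun z := (z.1 + z.2, z.1)
  left_inv z := by simp
  right_inv z := by simp

lemma shr_apply (z : K3 × K3) : shr z = (z.2, z.1 - z.2) := rfl

lemma tsum_shr {f g : K3 → ℂ} (hf : Summable f) (hg : Summable g) :
    (∑' k, f k) * (∑' k, g k) = ∑' k, ∑' p, f p * g (k - p) := by
  have hs : Summable fun z : K3 × K3 => f z.1 * g z.2 :=
    summable_mul_of_summable_norm hf.norm hg.norm
  have hs' : Summable fun z : K3 × K3 => f z.2 * g (z.1 - z.2) := by
    have := shr.summable_iff.2 hs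
    refine this.congr fun z => ?_
    rw [Function.comp_apply, shr_apply]
  rw [tsum_mul_tsum_of_summable_norm hf.norm hg.norm, ← hs'.tsum_prod, ← shr.tsum_eq]
  refine tsum_congr fun z => ?_
  rw [shr_apply]

/-- product of Fourier series -/
lemma S_mul {b c : K3 → ℂ} (hb : Summable b) (hc : Summable c) (x : V) :
    S b x * S c x = S (cv b c) x := by
  have h := tsum_shr (summable_term hb x) (summable_term hc x)
  unfold S cv
  rw [h]
  refine tsum_congr fun k => ?_
  rw [← tsum_mul_right]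
  refine tsum_congr fun p => ?_
  have : ee k x = ee p x * ee (k - p) x := by
    rw [← ee_add_left]; congr 1; abel
  rw [this]
  ring
end Pool.Agent.Run7.h32.GD
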