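import Pool.Agent.Run7.h32.GD.Ser

/-!
Joint smoothness of Fourier series with smooth coefficients.
-/

set_option autoImplicit false

open MeasureTheory Set Filter Topology
open scoped ContDiff

namespace Pool.Agent.Run7.h32.GD

open H459R3.NS Pool.Agent.Run7.h782.GD

lemma mul_D (j : Fin 3) : Mul fun k : K3 => (2 * Real.pi * Complex.I * (k j : ℂ)) :=
  (mul_const (2 * Real.pi * Complex.I)).mul (mul_coord j)

lemma Gd.D {n : ℕ} {c : ℝ → K3 → ℂ} (h : Gd n c) (j : Fin 3) :
    Gd n (fun t => H459R3.NS.D j (c t)) :=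
  h.mul (mul_D j)

lemma Dec.D {c : ℝ → K3 → ℂ} (h : Dec c) (j : Fin 3) : Dec (fun t => H459R3.NS.D j (c t)) :=
  h.mul (mul_D j)

/-- the derivative with given partial derivatives -/
noncomputable def Lc (A : ℂ) (B : Fin 3 → ℂ) : ℝ × V →L[ℝ] ℂ :=
  (ContinuousLinearMap.fst ℝ ℝ V).smulRight A +
    ∑ j, ((ContinuousLinearMap.proj (R := ℝ) (φ := fun _ : Fin 3 => ℝ) j).comp
      (ContinuousLinearMap.snd ℝ ℝ V)).smulRight (B j)

lemma Lc_apply (A : ℂ) (B : Fin 3 → ℂ) (z : ℝ × V) :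
    Lc A B z = (z.1 : ℂ) * A + ∑ j, (z.2 j : ℂ) * B j := by
  unfold Lc
  simp

lemma norm_Lc_le (A : ℂ) (B : Fin 3 → ℂ) : ‖Lc A B‖ ≤ ‖A‖ + ∑ j, ‖B j‖ := by
  refine ContinuousLinearMap.opNorm_le_bound _ (by positivity) fun z => ?_
  rw [Lc_apply]
  have h1 : ‖(z.1 : ℂ)‖ ≤ ‖z‖ := by
    rw [Complex.norm_real]; exact norm_fst_le z
  have h2 : ∀ j, ‖((z.2 j : ℝ) : ℂ)‖ ≤ ‖z‖ := fun j => by
    rw [Complex.norm_real]
    exact (norm_le_pi_norm z.2 j).trans (norm_snd_le z)
  refine (norm_add_le _ _).trans ?_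
  rw [norm_mul, add_mul, Finset.sum_mul]
  refine add_le_add ?_ ((norm_sum_le _ _).trans (Finset.sum_le_sum fun j _ => ?_))
  · rw [mul_comm]; exact mul_le_mul_of_nonneg_left h1 (norm_nonneg _)
  · rw [norm_mul, mul_comm]; exact mul_le_mul_of_nonneg_left (h2 j) (norm_nonneg _)

/-- one term of the series -/
lemma hasFDerivAt_term {f : ℝ → ℂ} {f' : ℂ} {z : ℝ × V} (hf : HasDerivAt f f' z.1) (k : K3) :
    HasFDerivAt (fun y : ℝ × V => f y.1 * ee k y.2)
      (Lc (f' * ee k z.2) (fun j => (2 * Real.pi * Complex.I * (k j : ℂ)) * (f z.1 * ee k z.2))) z := by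
  have h1 : HasFDerivAt (fun y : ℝ × V => f y.1)
      ((ContinuousLinearMap.smulRight (1 : ℝ →L[ℝ] ℝ) f').comp (ContinuousLinearMap.fst ℝ ℝ V)) z :=
    (hf.hasFDerivAt (x := z.1)).comp z hasFDerivAt_fst
  have he : HasFDerivAt (ee k) (fderiv ℝ (ee k) z.2) z.2 :=
    (((ee_contDiff k (n := 1)).differentiable one_ne_zero) z.2).hasFDerivAt
  have h2 : HasFDerivAt (fun y : ℝ × V => ee k y.2)
      ((fderiv ℝ (ee k) z.2).comp (ContinuousLinearMap.snd ℝ ℝ V)) z :=
    he.comp z hasFDerivAt_snd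
  have h3 := h1.mul h2
  refine h3.congr_fderiv (ContinuousLinearMap.ext fun w => ?_)
  have e2 : fderiv ℝ (ee k) z.2 w.2 = ∑ j, (w.2 j : ℂ) * pd j (ee k) z.2 := by
    conv_lhs => rw [← Finset.univ_sum_single w.2]
    rw [map_sum]
    refine Finset.sum_congr rfl fun j _ => ?_
    have : (Pi.single j (w.2 j) : V) = w.2 j • Pi.single j 1 := by
      rw [← Pi.single_smul]; simp
    rw [this, map_smul]
    unfold pd
    simp
  rw [Lc_apply]
  simp only [ContinuousLinearMap.add_apply, ContinuousLinearMap.smul_apply,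
    ContinuousLinearMap.comp_apply, ContinuousLinearMap.coe_fst', ContinuousLinearMap.coe_snd',
    ContinuousLinearMap.smulRight_apply, ContinuousLinearMap.one_apply, smul_eq_mul]
  rw [e2, Finset.mul_sum, add_comm]
  congr 1
  · rw [Complex.real_smul]; ring
  · refine Finset.sum_congr rfl fun j _ => ?_
    rw [pd_ee]; ring

/-- the derivative of the series -/
lemma hasFDerivWithinAt_S {n : ℕ} {c c' : ℝ → K3 → ℂ} (hc : Dec c) (hc' : Gd n c')
    (hd : ∀ k t, 0 ≤ t → HasDerivWithinAt (fun s => c s k) (c' t k) (Ici 0) t) {z : ℝ × V}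
    (hz : 0 ≤ z.1) :
    HasFDerivWithinAt (fun y : ℝ × V => S (c y.1) y.2)
      (Lc (S (c' z.1) z.2) (fun j => S (D j (c z.1)) z.2)) (Ici 0 ×ˢ univ) z := by
  obtain ⟨μ, hμ, C, hC, h⟩ := hc.common hc'.dec
  set M : K3 → ℂ := fun k => ∑ j, ((2 * Real.pi * ‖(k j : ℂ)‖ : ℝ) : ℂ) with hM
  have hMul : Mul M := by
    have hj : ∀ j : Fin 3, Mul fun k : K3 => ((2 * Real.pi * ‖(k j : ℂ)‖ : ℝ) : ℂ) := fun j => by
      refine (mul_D j).of_le fun k => ?_
      rw [norm_mul, norm_mul, norm_mul, Complex.norm_I, Complex.norm_real, Complex.norm_real]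
      simp [abs_of_pos Real.pi_pos]
    have : M = fun k => ((2 * Real.pi * ‖(k 0 : ℂ)‖ : ℝ) : ℂ) +
        (((2 * Real.pi * ‖(k 1 : ℂ)‖ : ℝ) : ℂ) + ((2 * Real.pi * ‖(k 2 : ℂ)‖ : ℝ) : ℂ)) := by
      funext k; rw [hM]; simp only [Fin.sum_univ_three]; ring
    rw [this]
    exact (hj 0).add ((hj 1).add (hj 2))
  obtain ⟨C', hC', hM'⟩ := hMul (μ / 2) (half_pos hμ)
  have hMn : ∀ k, ‖M k‖ = ∑ j, ‖(2 * Real.pi * Complex.I * (k j : ℂ))‖ := by
    intro k
    rw [hM]
    simp only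
    rw [← Complex.ofReal_sum, Complex.norm_real, Real.norm_of_nonneg (by positivity)]
    refine Finset.sum_congr rfl fun j _ => ?_
    rw [norm_mul, norm_mul, norm_mul, Complex.norm_I, Complex.norm_real]
    simp [abs_of_pos Real.pi_pos]
  set u : K3 → ℝ := fun k => C * Real.exp (-(μ * len k))
    + (C' * Real.exp (μ / 2 * len k)) * (2 * C * Real.exp (-(μ * len k))) with hu
  have hus : Summable u := by
    refine ((summable_exp hμ).mul_left C).add ?_
    refine ((summable_exp (half_pos hμ)).mul_left (C' * (2 * C))).congr fun k => ?_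
    have : Real.exp (-(μ / 2 * len k)) = Real.exp (μ / 2 * len k) * Real.exp (-(μ * len k)) := by
      rw [← Real.exp_add]; congr 1; ring
    rw [this]; ring
  set s : Set (ℝ × V) := Ioi (-1) ×ˢ univ with hs
  have hso : IsOpen s := isOpen_Ioi.prod isOpen_univ
  have hsc : IsPreconnected s := ((convex_Ioi (-1 : ℝ)).prod convex_univ).isPreconnected
  set F : K3 → ℝ × V → ℂ := fun k y => ext (fun s => c s k) (fun s => c' s k) y.1 * ee k y.2
    with hF
  set F' : K3 → ℝ × V → (ℝ × V →L[ℝ] ℂ) := fun k y =>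
    Lc (c' (max y.1 0) k * ee k y.2) (fun j => (2 * Real.pi * Complex.I * (k j : ℂ)) *
      (ext (fun s => c s k) (fun s => c' s k) y.1 * ee k y.2)) with hF'
  have hext : ∀ k, ∀ t : ℝ, -1 < t → ‖ext (fun s => c s k) (fun s => c' s k) t‖
      ≤ 2 * C * Real.exp (-(μ * len k)) := by
    intro k t ht
    unfold ext
    refine (norm_add_le _ _).trans ?_
    rw [norm_smul]
    have h1 := (h (max t 0) (le_max_right _ _) k).1
    have h2 := (h 0 le_rfl k).2
    have h3 : ‖min t 0‖ ≤ 1 := by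
      rw [Real.norm_eq_abs, abs_le]
      constructor
      · exact le_min ht.le (by norm_num)
      · exact (min_le_right _ _).trans (by norm_num)
    have h4 : ‖min t 0‖ * ‖c' 0 k‖ ≤ 1 * (C * Real.exp (-(μ * len k))) :=
      mul_le_mul h3 h2 (norm_nonneg _) (by norm_num)
    linarith
  have hder : ∀ k, ∀ y ∈ s, HasFDerivAt (F k) (F' k y) y := fun k y _ =>
    hasFDerivAt_term (hasDerivAt_ext (hd k) y.1) k
  have hbd : ∀ k, ∀ y ∈ s, ‖F' k y‖ ≤ u k := by
    intro k y hy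
    refine (norm_Lc_le _ _).trans (add_le_add ?_ ?_)
    · rw [norm_mul, norm_ee, mul_one]
      exact (h _ (le_max_right _ _) k).2
    · have e : ∀ j, ‖(2 * Real.pi * Complex.I * (k j : ℂ)) *
          (ext (fun s => c s k) (fun s => c' s k) y.1 * ee k y.2)‖
          = ‖(2 * Real.pi * Complex.I * (k j : ℂ))‖ *
            ‖ext (fun s => c s k) (fun s => c' s k) y.1‖ := fun j => by
        rw [norm_mul, norm_mul _ (ee k y.2), norm_ee, mul_one]
      simp_rw [e]
      rw [← Finset.sum_mul, ← hMn]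
      exact mul_le_mul (hM' k) (hext k y.1 hy.1) (norm_nonneg _) (by positivity)
  have hz' : z ∈ s := ⟨show (-1 : ℝ) < z.1 by linarith, mem_univ _⟩
  have hsum : Summable fun k => F k z := by
    refine Summable.of_norm_bounded ((summable_exp hμ).mul_left (2 * C)) fun k => ?_
    rw [hF]
    simp only
    rw [norm_mul, norm_ee, mul_one]
    exact hext k z.1 hz'.1
  have key := hasFDerivAt_tsum_of_isPreconnected hus hso hsc hder hbd hz' hsum hz'
  have e1 : ∀ y ∈ (Ici (0 : ℝ) ×ˢ univ : Set (ℝ × V)), S (c y.1) y.2 = ∑' k, F k y := by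
    intro y hy
    unfold S
    refine tsum_congr fun k => ?_
    rw [hF]
    simp only
    rw [ext_of_nonneg hy.1]
  have e2 : ∑' k, F' k z = Lc (S (c' z.1) z.2) (fun j => S (D j (c z.1)) z.2) := by
    have hs1 : Summable fun k => F' k z := Summable.of_norm_bounded hus fun k => hbd k z hz'
    refine ContinuousLinearMap.ext fun w => ?_
    have ha : (∑' k, F' k z) w = ∑' k, F' k z w :=
      (ContinuousLinearMap.apply ℝ ℂ w).map_tsum hs1
    rw [ha, Lc_apply]
    have hA : Summable fun k => c' z.1 k * ee k z.2 := summable_term (hc'.dec.summable hz) _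
    have hB : ∀ j, Summable fun k => D j (c z.1) k * ee k z.2 := fun j =>
      summable_term ((hc.D j).summable hz) _
    have e3 : ∀ k, F' k z w = (w.1 : ℂ) * (c' z.1 k * ee k z.2)
        + ∑ j, (w.2 j : ℂ) * (D j (c z.1) k * ee k z.2) := by
      intro k
      rw [hF']
      simp only
      rw [Lc_apply, max_eq_left hz, ext_of_nonneg hz]
      congr 1
      refine Finset.sum_congr rfl fun j _ => ?_
      unfold D
      ring
    simp_rw [e3]
    rw [(hA.mul_left _).tsum_add (summable_sum fun j _ => (hB j).mul_left _),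
      tsum_mul_left, Summable.tsum_finsetSum (fun j _ => (hB j).mul_left _)]
    congr 1
    refine Finset.sum_congr rfl fun j _ => ?_
    rw [tsum_mul_left]
    rfl
  rw [e2] at key
  exact key.hasFDerivWithinAt.congr e1 (e1 z ⟨hz, mem_univ _⟩)

lemma uniqueDiff_Ici : UniqueDiffOn ℝ (Ici (0 : ℝ) ×ˢ (univ : Set V)) :=
  (uniqueDiffOn_Ici 0).prod uniqueDiffOn_univ

lemma contDiffOn_S_zero {c : ℝ → K3 → ℂ} (h : Gd 0 c) :
    ContinuousOn (fun z : ℝ × V => S (c z.1) z.2) (Ici 0 ×ˢ univ) := by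
  obtain ⟨μ, hμ, C, hC, hb⟩ := h.dec
  unfold S
  refine continuousOn_tsum (u := fun k => C * Real.exp (-(μ * len k))) (fun k => ?_)
    ((summable_exp hμ).mul_left C) fun k z hz => ?_
  · refine ContinuousOn.mul ?_ ((ee_continuous k).comp continuous_snd).continuousOn
    exact (h.2 k).comp continuousOn_fst fun z hz => hz.1
  · rw [norm_mul, norm_ee, mul_one]
    exact hb _ hz.1 k

theorem contDiffOn_S {n : ℕ} : ∀ {c : ℝ → K3 → ℂ}, Gd n c →
    ContDiffOn ℝ n (fun z : ℝ × V => S (c z.1) z.2) (Ici 0 ×ˢ univ) := by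
  induction n with
  | zero =>
    intro c h
    simpa using contDiffOn_S_zero h
  | succ n ih =>
    intro c h
    obtain ⟨c', h1, h2⟩ := h.2
    have hd : ∀ z ∈ (Ici (0 : ℝ) ×ˢ univ : Set (ℝ × V)),
        HasFDerivWithinAt (fun y : ℝ × V => S (c y.1) y.2)
        (Lc (S (c' z.1) z.2) (fun j => S (D j (c z.1)) z.2)) (Ici 0 ×ˢ univ) z := fun z hz =>
      hasFDerivWithinAt_S h.dec h2 h1 hz.1
    have hcd : ContDiffOn ℝ n (fun z : ℝ × V =>
        Lc (S (c' z.1) z.2) (fun j => S (D j (c z.1)) z.2)) (Ici 0 ×ˢ univ) := by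
      unfold Lc
      refine ContDiffOn.add (contDiffOn_const.smulRight (ih h2)) ?_
      refine ContDiffOn.sum fun j _ => ?_
      exact contDiffOn_const.smulRight (ih (h.pred.D j))
    have : ((n + 1 : ℕ) : WithTop ℕ∞) = (n : WithTop ℕ∞) + 1 := by norm_cast
    rw [this]
    rw [contDiffOn_succ_iff_fderivWithin uniqueDiff_Ici]
    refine ⟨fun z hz => (hd z hz).differentiableWithinAt, fun h => ?_, ?_⟩
    · exact absurd h (by simp)
    · exact hcd.congr fun z hz => (hd z hz).fderivWithin (uniqueDiff_Ici z hz)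

/-- smooth families -/
def Gs (c : ℝ → K3 → ℂ) : Prop := ∀ n, Gd n c

theorem contDiffOn_S_infty {c : ℝ → K3 → ℂ} (h : Gs c) :
    ContDiffOn ℝ ∞ (fun z : ℝ × V => S (c z.1) z.2) (Ici 0 ×ˢ univ) := by
  rw [contDiffOn_infty]
  exact fun n => contDiffOn_S (h n)

/-- space derivatives -/
lemma hasFDerivAt_S {c : K3 → ℂ} (hc : Dec fun _ => c) (x : V) (j : Fin 3) :
    pd j (S c) x = S (D j c) x := by
  have hz : Gd 0 (fun (_ : ℝ) (_ : K3) => (0 : ℂ)) :=
    ⟨⟨1, one_pos, 0, le_rfl, fun t _ k => by simp⟩, fun k => continuousOn_const⟩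
  have h := hasFDerivWithinAt_S (n := 0) hc hz (fun k t _ => hasDerivWithinAt_const _ _ _)
    (z := ((1 : ℝ), x)) zero_le_one
  have h2 : HasFDerivAt (fun y : ℝ × V => S c y.2)
      (Lc (S (fun _ => 0) x) (fun j => S (D j c) x)) ((1 : ℝ), x) :=
    h.hasFDerivAt (prod_mem_nhds (Ici_mem_nhds zero_lt_one) univ_mem)
  have h3 : HasFDerivAt (fun y : V => ((1 : ℝ), y)) (ContinuousLinearMap.inr ℝ ℝ V) x :=
    hasFDerivAt_prodMk_right 1 x
  have h4 : HasFDerivAt (S c) ((Lc (S (fun _ => 0) x) (fun j => S (D j c) x)).comp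
      (ContinuousLinearMap.inr ℝ ℝ V)) x := h2.comp x h3
  unfold pd
  rw [h4.fderiv]
  simp only [ContinuousLinearMap.comp_apply, ContinuousLinearMap.inr_apply]
  rw [Lc_apply, Finset.sum_eq_single j (fun b _ hb => by simp [hb])
    (fun h => absurd (Finset.mem_univ j) h)]
  simp

/-- time derivatives -/
lemma hasDerivWithinAt_S {n : ℕ} {c c' : ℝ → K3 → ℂ} (hc : Dec c) (hc' : Gd n c')
    (hd : ∀ k t, 0 ≤ t → HasDerivWithinAt (fun s => c s k) (c' t k) (Ici 0) t) {t : ℝ}
    (ht : 0 ≤ t) (x : V) :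
    HasDerivWithinAt (fun s => S (c s) x) (S (c' t) x) (Ici 0) t := by
  obtain ⟨μ, hμ, C, hC, hb⟩ := hc'.dec
  unfold S
  refine hasDerivWithinAt_tsum_Ici (f := fun k s => c s k * ee k x)
    (f' := fun k s => c' s k * ee k x) ((summable_exp hμ).mul_left C)
    (fun k s hs => (hd k s hs).mul_const _) (fun k s hs => ?_)
    (summable_term (hc.summable le_rfl) x) ht
  rw [norm_mul, norm_ee, mul_one]
  exact hb s hs k

end Pool.Agent.Run7.h32.GD
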